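import Pool.Agent.LibTB3.Defs

/-!
# Board TB4 : the semistable category W_x as a module category
Definitions.  `P` is a module in `W_x`; `Hom(P,X)` is a left module over `C = End(P)^op`.
-/

set_option autoImplicit false

universe u

namespace TB4

open Module TB10 TB3

section
variable (A : Type u) [Ring A] (P : Type u) [AddCommGroup P] [Module A P]

/-- the opposite endomorphism ring of `P` -/
abbrev Ce : Type u := (Module.End A P)ᵐᵒᵖ

/-- `Hom(P,X)` as a left module over `End(P)^op` -/
def HomP (X : Type u) [AddCommGroup X] [Module A X] : Type u := P →ₗ[A] X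

variable {A P}
variable {X : Type u} [AddCommGroup X] [Module A X]

instance : AddCommGroup (HomP A P X) := inferInstanceAs (AddCommGroup (P →ₗ[A] X))

instance : SMul (Ce A P) (HomP A P X) where
  smul c φ := (show P →ₗ[A] X from φ) ∘ₗ (c.unop : P →ₗ[A] P)

theorem HomP.smul_def (c : Ce A P) (φ : HomP A P X) :
    c • φ = ((show P →ₗ[A] X from φ) ∘ₗ (c.unop : P →ₗ[A] P) : P →ₗ[A] X) := rfl

instance : Module (Ce A P) (HomP A P X) where
  one_smul φ := by
    rw [HomP.smul_def]
    exact LinearMap.comp_id _
  mul_smul a b φ := by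
    rw [HomP.smul_def, HomP.smul_def, HomP.smul_def, MulOpposite.unop_mul]
    rfl
  smul_zero a := by
    rw [HomP.smul_def]
    exact LinearMap.zero_comp _
  smul_add a φ ψ := by
    rw [HomP.smul_def, HomP.smul_def, HomP.smul_def]
    exact LinearMap.add_comp _ _ _
  add_smul a b φ := by
    rw [HomP.smul_def, HomP.smul_def, HomP.smul_def, MulOpposite.unop_add]
    exact LinearMap.comp_add _ _ _
  zero_smul φ := by
    rw [HomP.smul_def, MulOpposite.unop_zero]
    exact LinearMap.comp_zero _

variable {k : Type u} [Field k] [Algebra k A] [Module k P] [IsScalarTower k A P]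
  [Module k X] [IsScalarTower k A X]

instance : Module k (HomP A P X) := inferInstanceAs (Module k (P →ₗ[A] X))

instance : IsScalarTower k (Ce A P) (HomP A P X) where
  smul_assoc c a φ := by
    rw [HomP.smul_def, HomP.smul_def, MulOpposite.unop_smul]
    apply LinearMap.ext
    intro q
    change (show P →ₗ[A] X from φ) ((c • (a.unop : Module.End A P)) q) =
      c • ((show P →ₗ[A] X from φ) ((a.unop : Module.End A P) q))
    rw [LinearMap.smul_apply, ← algebraMap_smul A c, map_smul, algebraMap_smul]

instance [Module.Finite k P] [Module.Finite k X] : Module.Finite k (HomP A P X) :=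
  inferInstanceAs (Module.Finite k (P →ₗ[A] X))

instance [Module.Finite k P] : Module.Finite k (Ce A P) :=
  Module.Finite.equiv (MulOpposite.opLinearEquiv k : (Module.End A P) ≃ₗ[k] (Module.End A P)ᵐᵒᵖ)

end

section
variable (k : Type u) [Field k] {A : Type u} [Ring A] [Algebra k A] {n : ℕ}
variable (p : Fin n → Submodule A A)

/-- `P` is a projective generator of the category of `x`-semistable modules. -/
structure Prg (x : Fin n → ℤ) (P : Type u) [AddCommGroup P] [Module A P] [Module k P]
    [IsScalarTower k A P] : Prop where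
  ws : Ws k p x P
  gen : ∀ (X : Type u) [AddCommGroup X] [Module A X] [Module k X] [IsScalarTower k A X]
    [Module.Finite k X], Ws k p x X → Gen A P X
  proj : ∀ (X Y : Type u) [AddCommGroup X] [Module A X] [Module k X] [IsScalarTower k A X]
    [Module.Finite k X] [AddCommGroup Y] [Module A Y] [Module k Y] [IsScalarTower k A Y]
    [Module.Finite k Y] (f : X →ₗ[A] Y), Function.Surjective f → Ws k p x X → Ws k p x Y →
    ∀ θ : P →ₗ[A] Y, ∃ θ' : P →ₗ[A] X, f ∘ₗ θ' = θ

end

end TB4
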