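import Pool.Agent.LibTB3.Defs
import Pool.Agent.LibTB10.R1
import Pool.Agent.LibTB10.P2
/-!
ROW [TB4 W10] MEDIUM.
(cite TB10.exists_rep, TB10.exists_simple_sub) a finite-dimensional algebra has finitely many simple modules.
PLAN. (1) For every f.d. module M there is a list L of simple representations such that every simple T (finite over k) with a nonzero map M → T is ≃ Vm r.2 for some r ∈ L: strong induction on finrank k M;
M = 0: empty list.  N ≤ M simple (TB10.exists_simple_sub); f : M → T nonzero: if f restricted to N is not 0 then N ≃ T (LinearMap.bijective_or_eq_zero); otherwise f factors through M ⧸ N of smaller dimension.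
(N ≃ Vm ρ by exists_rep.)  (2) M = A: a simple T has a nonzero map A → T (a ↦ a t).  T gets the k-structure Module.compHom T (algebraMap k A), finite over k because it is a quotient of A
(see TB10.two_simples in LibTB10/F2).  (3) choose a sublist of pairwise nonisomorphic members (e.g. among all lists with property (1) for M = A take one of minimal length:
its members are simple (filter) and pairwise nonisomorphic), V i = L.get i.
-/
set_option autoImplicit false
universe u
namespace TB4
open Module TB10 TB3

/-- all simple modules with a nonzero map from `M` occur in a finite list -/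
theorem w10_list (k : Type u) [Field k] (A : Type u) [Ring A] [Algebra k A] :
    ∀ (n : ℕ) (M : Type u) [AddCommGroup M] [Module A M] [Module k M] [IsScalarTower k A M]
      [Module.Finite k M], finrank k M = n → ∃ L : List (Rp k A),
        (∀ r ∈ L, IsSimpleModule A (Vm r.2)) ∧
        ∀ (T : Type u) [AddCommGroup T] [Module A T] [IsSimpleModule A T] (f : M →ₗ[A] T), f ≠ 0 →
          ∃ r ∈ L, Nonempty (T ≃ₗ[A] Vm r.2) := by
  intro n
  induction n using Nat.strong_induction_on with
  | _ n ih =>
    intro M _ _ _ _ _ hn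
    rcases subsingleton_or_nontrivial M with hM | hM
    · refine ⟨[], fun r hr => absurd hr List.not_mem_nil, fun T _ _ _ f hf => ?_⟩
      exfalso
      apply hf
      refine LinearMap.ext fun x => ?_
      rw [Subsingleton.elim x 0, map_zero, map_zero]
    · obtain ⟨N, hN⟩ := exists_simple_sub (k := k) (A := A) (X := M)
      have hNn : Nontrivial N := IsSimpleModule.nontrivial A N
      have h1 : 0 < finrank k N := finrank_pos
      have h2 := Submodule.finrank_quotient_add_finrank (N.restrictScalars k)
      have h3 : finrank k (M ⧸ N.restrictScalars k) = finrank k (M ⧸ N) :=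
        (Submodule.Quotient.restrictScalarsEquiv k N).finrank_eq
      have h4 : finrank k ↥(N.restrictScalars k) = finrank k N := rfl
      have h5 : finrank k (M ⧸ N) < n := by omega
      obtain ⟨L, hL1, hL2⟩ := ih _ h5 (M ⧸ N) rfl
      obtain ⟨ρ, ⟨e⟩⟩ := exists_rep (k := k) (A := A) N
      refine ⟨(⟨finrank k N, ρ⟩ : Rp k A) :: L, ?_, ?_⟩
      · intro r hr
        rcases List.mem_cons.1 hr with rfl | hr
        · exact IsSimpleModule.congr e.symm
        · exact hL1 r hr
      · intro T _ _ _ f hf
        by_cases hfN : f ∘ₗ N.subtype = 0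
        · have hfN' : N ≤ LinearMap.ker f := fun x hx => LinearMap.congr_fun hfN ⟨x, hx⟩
          have hg : N.liftQ f hfN' ≠ 0 := by
            intro h0
            apply hf
            refine LinearMap.ext fun x => ?_
            exact LinearMap.congr_fun h0 (Submodule.Quotient.mk x)
          obtain ⟨r, hr, e'⟩ := hL2 T _ hg
          exact ⟨r, List.mem_cons_of_mem _ hr, e'⟩
        · have hb := (LinearMap.bijective_or_eq_zero (f ∘ₗ N.subtype)).resolve_right hfN
          exact ⟨_, List.mem_cons_self, ⟨(LinearEquiv.ofBijective _ hb).symm.trans e⟩⟩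

theorem exists_simples (k : Type u) [Field k] (A : Type u) [Ring A] [Algebra k A] [Module.Finite k A] :
    ∃ (n : ℕ) (V : Fin n → Rp k A), (∀ i, IsSimpleModule A (Vm (V i).2)) ∧
      (∀ i j, i ≠ j → IsEmpty (Vm (V i).2 ≃ₗ[A] Vm (V j).2)) ∧
      ∀ (T : Type u) [AddCommGroup T] [Module A T] [IsSimpleModule A T],
        ∃ i, Nonempty (T ≃ₗ[A] Vm (V i).2) := by
  classical
  have hex : ∃ n : ℕ, ∃ V : Fin n → Rp k A, (∀ i, IsSimpleModule A (Vm (V i).2)) ∧
      ∀ (T : Type u) [AddCommGroup T] [Module A T] [IsSimpleModule A T],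
        ∃ i, Nonempty (T ≃ₗ[A] Vm (V i).2) := by
    obtain ⟨L, hL1, hL2⟩ := w10_list k A _ A rfl
    refine ⟨L.length, L.get, fun i => hL1 _ (List.get_mem _ _), ?_⟩
    intro T _ _ _
    have hT : Nontrivial T := IsSimpleModule.nontrivial A T
    obtain ⟨t, ht⟩ := exists_ne (0 : T)
    have hf : LinearMap.toSpanSingleton A T t ≠ 0 := by
      intro h0
      apply ht
      have h1 := LinearMap.congr_fun h0 1
      rwa [LinearMap.toSpanSingleton_apply, one_smul, LinearMap.zero_apply] at h1
    obtain ⟨r, hr, e⟩ := hL2 T _ hf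
    obtain ⟨i, rfl⟩ := List.mem_iff_get.1 hr
    exact ⟨i, e⟩
  obtain ⟨V, hV1, hV2⟩ := Nat.find_spec hex
  refine ⟨Nat.find hex, V, hV1, ?_, hV2⟩
  intro i j hij
  by_contra hne
  rw [not_isEmpty_iff] at hne
  obtain ⟨e⟩ := hne
  obtain ⟨m, hm⟩ : ∃ m, Nat.find hex = m + 1 := by
    cases h : Nat.find hex with
    | zero =>
      rw [h] at i
      exact i.elim0
    | succ m => exact ⟨m, rfl⟩
  refine Nat.find_min hex (m := m) (by omega) ?_
  generalize Nat.find hex = n at V i j hm hV1 hV2 hij e
  subst hm
  refine ⟨fun l => V (j.succAbove l), fun l => hV1 _, ?_⟩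
  intro T _ _ _
  obtain ⟨l, ⟨e'⟩⟩ := hV2 T
  by_cases hl : l = j
  · subst hl
    obtain ⟨l', hl'⟩ := Fin.exists_succAbove_eq hij
    refine ⟨l', ?_⟩
    change Nonempty (T ≃ₗ[A] Vm (V (l.succAbove l')).2)
    rw [hl']
    exact ⟨e'.trans e.symm⟩
  · obtain ⟨l', hl'⟩ := Fin.exists_succAbove_eq hl
    refine ⟨l', ?_⟩
    change Nonempty (T ≃ₗ[A] Vm (V (j.succAbove l')).2)
    rw [hl']
    exact ⟨e'⟩

end TB4
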