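import Pool.Agent.LibTB4.W4
import Pool.Agent.LibTB10.R1
/-!
ROW [TB4 W5] MEDIUM.
(cite W2, W3, W4, TB10.exists_rep, TB10.brick_congr, TB10.R1) transfer of infinite families.
PLAN. inf_C: B : ℕ → Rp k A semistable bricks, pairwise nonisomorphic; HomP A P (Vm (B n).2) is a brick over C (brick_iff), exists_rep gives a representation ρ n of C with an isomorphism; pairwise nonisomorphic
by iso_of_iso.
fin_C: FinB k A implies FinB k C: given D, L covers the bricks of A of dimension ≤ finrank P * D.  For r ∈ L with Ws x (Vm r.2) take a representation of HomP A P (Vm r.2) (exists_rep; k-dimension whatever); the list of all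
of them (List.map with choice) covers: a brick N over C with finrank ≤ D is ≃ HomP A P X with X semistable (ess_surj), finrank X ≤ finrank P * finrank N ≤ ..., X is a brick (brick_iff, brick_congr), X ≃ Vm r.2, so
N ≃ HomP A P X ≃ HomP A P (Vm r.2) (composition with an isomorphism, mapH) ≃ representation.
-/
set_option autoImplicit false
universe u
namespace TB4
open Module TB10 TB3

section
variable {k : Type u} [Field k] {A : Type u} [Ring A] [Algebra k A]
variable {n : ℕ} {p : Fin n → Submodule A A}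
    [Module.Finite k A]
    {P : Type u} [AddCommGroup P] [Module A P] [Module k P] [IsScalarTower k A P] [Module.Finite k P]

/-- composition with an isomorphism -/
private def w5_equiv {A P : Type u} [Ring A] [AddCommGroup P] [Module A P]
    {X Y : Type u} [AddCommGroup X] [Module A X] [AddCommGroup Y] [Module A Y]
    (e : X ≃ₗ[A] Y) : HomP A P X ≃ₗ[Ce A P] HomP A P Y where
  toFun φ := (e.toLinearMap ∘ₗ (show P →ₗ[A] X from φ) : P →ₗ[A] Y)
  map_add' φ ψ := LinearMap.comp_add _ _ _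
  map_smul' _ _ := rfl
  invFun φ := (e.symm.toLinearMap ∘ₗ (show P →ₗ[A] Y from φ) : P →ₗ[A] X)
  left_inv φ := by
    apply LinearMap.ext
    intro v
    exact e.symm_apply_apply _
  right_inv φ := by
    apply LinearMap.ext
    intro v
    exact e.apply_symm_apply _

theorem inf_C (hp : Bas k p) {x : Fin n → ℤ} (hP : Prg k p x P)
    (h : ∃ B : ℕ → Rp k A, (∀ i, IsBrick A (Vm (B i).2) ∧ Ws k p x (Vm (B i).2)) ∧
      ∀ i j, i < j → IsEmpty (Vm (B i).2 ≃ₗ[A] Vm (B j).2)) : InfBricksAll k (Ce A P) := by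
  obtain ⟨B, hB, hne⟩ := h
  have h1 : ∀ i, ∃ ρ : Ce A P →ₐ[k] Module.End k (Fin (finrank k (HomP A P (Vm (B i).2))) → k),
      Nonempty (HomP A P (Vm (B i).2) ≃ₗ[Ce A P] Vm ρ) := fun i =>
    exists_rep (k := k) (A := Ce A P) (HomP A P (Vm (B i).2))
  choose ρ hρ using h1
  refine ⟨fun i => ⟨finrank k (HomP A P (Vm (B i).2)), ρ i⟩, ?_, ?_⟩
  · intro i
    obtain ⟨e⟩ := hρ i
    exact brick_congr e ((brick_iff hp hP (hB i).2).2 (hB i).1)
  · intro i j hij
    refine ⟨fun e => ?_⟩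
    obtain ⟨e1⟩ := hρ i
    obtain ⟨e2⟩ := hρ j
    obtain ⟨f⟩ := iso_of_iso hp hP (hB i).2 (hB j).2 ⟨(e1.trans e).trans e2.symm⟩
    exact (hne i j hij).false f

theorem fin_C (hp : Bas k p) {x : Fin n → ℤ} (hP : Prg k p x P) (h : FinB k A) : FinB k (Ce A P) := by
  intro D
  obtain ⟨L, hL⟩ := h (finrank k P * D)
  have h1 : ∀ r : Rp k A, ∃ ρ : Ce A P →ₐ[k] Module.End k (Fin (finrank k (HomP A P (Vm r.2))) → k),
      Nonempty (HomP A P (Vm r.2) ≃ₗ[Ce A P] Vm ρ) := fun r =>
    exists_rep (k := k) (A := Ce A P) (HomP A P (Vm r.2))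
  choose ρ hρ using h1
  refine ⟨L.map fun r => (⟨finrank k (HomP A P (Vm r.2)), ρ r⟩ : Rp k (Ce A P)), ?_⟩
  intro N _ _ _ _ _ hN hD
  obtain ⟨X, iX1, iX2, iX3, iX4, iX5, hX, hfr, ⟨e⟩⟩ := ess_surj (k := k) hp hP N
  have hXb : IsBrick A X := (brick_iff hp hP hX).1 (brick_congr e.symm hN)
  obtain ⟨r, hr, ⟨f⟩⟩ := hL X hXb (hfr.trans (Nat.mul_le_mul_left _ hD))
  obtain ⟨g⟩ := hρ r
  exact ⟨_, List.mem_map.2 ⟨r, hr, rfl⟩, ⟨(e.symm.trans (w5_equiv f)).trans g⟩⟩

end

end TB4
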