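import Pool.Agent.LibTB4.W4
import Pool.Agent.LibTB3.P2
import Pool.Agent.LibTB3.S0
import Pool.Agent.LibTB3.C4
/-!
ROW [TB4 W6] STRONG.
(cite N1, N3, R1, L3, C4, W2-W4) self-extensions over C = Ce A P.
Setting: V i are the x-stable modules, y i their dual classes, q the projective ideals of C (Bas k q), d_i(N) = dim Hom(q i, N).
PLAN. (0) every simple C-module T with a nonzero map q i → T is ≃ the module S_i of hq.dual i: otherwise (q i → S_i × T) is surjective (two different maximal submodules), (π, 0) lifts through it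
(q i projective) to e : q i → q i with π e = π, π' e = 0, neither nilpotent nor bijective: contradiction with hq.loc i.  So the simple C-modules are exactly the S_i, and they are ≃ HomP A P (V i) with V i x-stable
(stable_of_simple), every x-stable module is ≃ one of the V i (simple_of_stable, iso_of_iso).
(1) N = HomP A P X: br k q z N = ∑ z i d_i(N), and d_i on the simple modules HomP A P (V j) is a permutation matrix: q i ↔ simple module (hp.dual for q, stable_of_simple: the simple module of q i is
≃ HomP A P (V (σ i))).  Both d_i(HomP A P X) and br (y (σ i)) X are additive on W_x and agree on the V j (Dl.one, Dl.zero), so they are equal for all X in W_x (Ws_rec; HomP of an exact sequence in W_x is exact by Prg.proj,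
finrank additivity br_ker for q).
(2) Let N be z-stable over C, N ≃ HomP A P X (ess_surj).  Claim: X is x'-stable for A with x' = M • x + ∑ z i • y (σ i), M large: br x' X = 0 + br z N = 0; for a submodule U ≠ ⊥, ⊤ of X: if br x U < 0 then br x' U ≤ -M + C < 0
(br_bound for u = ∑ z i • y (σ i)); if br x U = 0 then U is semistable (Ws_sub), HomP A P U → N is injective, not onto (otherwise X ⧸ U, semistable and nonzero, has HomP = 0), nonzero, so
br z (HomP A P U) < 0 by stability of N, and it is br (∑ z i y (σ i)) U.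
(3) A self-extension 0 → N → E → N → 0 over C: E ≃ HomP A P Y (ess_surj), the maps come from A-linear maps ι : X → Y, σ : Y → X (full); ι injective, σ surjective, exact (kernels and cokernels are semistable and
detected by HomP: hom_nontrivial).  hN : NSE for A gives a section s, mapH s is a section.
-/
set_option autoImplicit false
universe u
namespace TB4
open Module TB10 TB3

section
variable {k : Type u} [Field k] {A : Type u} [Ring A] [Algebra k A]
variable {n : ℕ} {p : Fin n → Submodule A A}
    [Module.Finite k A]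
    {P : Type u} [AddCommGroup P] [Module A P] [Module k P] [IsScalarTower k A P] [Module.Finite k P]

/-- the top of a projective module with local endomorphism ring -/
theorem w6_top {A : Type u} [Ring A] {Q T T' : Type u} [AddCommGroup Q] [Module A Q]
    [AddCommGroup T] [Module A T] [AddCommGroup T'] [Module A T'] [Module.Projective A Q]
    (hloc : Loc A Q) [IsSimpleModule A T] [IsSimpleModule A T'] (π : Q →ₗ[A] T) (hπ : π ≠ 0)
    (π' : Q →ₗ[A] T') (hπ' : π' ≠ 0) : Nonempty (T ≃ₗ[A] T') := by
  by_cases h : (π ∘ₗ (LinearMap.ker π').subtype) = 0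
  · obtain ⟨g, hg⟩ : ∃ g : T' →ₗ[A] T, π = g ∘ₗ π' := by
      have hs : Function.Surjective π' := LinearMap.surjective_of_ne_zero hπ'
      refine ⟨(LinearMap.ker π').liftQ π (fun v hv => LinearMap.congr_fun h ⟨v, hv⟩) ∘ₗ
        (π'.quotKerEquivOfSurjective hs).symm.toLinearMap, ?_⟩
      ext v
      have h1 : (π'.quotKerEquivOfSurjective hs).symm (π' v) = Submodule.Quotient.mk v := by
        rw [LinearEquiv.symm_apply_eq]
        rfl
      simp only [LinearMap.comp_apply, LinearEquiv.coe_coe]
      rw [h1]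
      rfl
    have hg0 : g ≠ 0 := by
      rintro rfl
      apply hπ
      rw [hg, LinearMap.zero_comp]
    exact ⟨(LinearEquiv.ofBijective g (LinearMap.bijective_of_ne_zero hg0)).symm⟩
  · exfalso
    have hs : Function.Surjective (π ∘ₗ (LinearMap.ker π').subtype) :=
      LinearMap.surjective_of_ne_zero h
    obtain ⟨e0, he0⟩ := Module.projective_lifting_property _ π hs
    let e : Q →ₗ[A] Q := (LinearMap.ker π').subtype ∘ₗ e0
    have h1 : π ∘ₗ e = π := he0
    have h2 : π' ∘ₗ e = 0 := by
      apply LinearMap.ext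
      intro v
      exact (e0 v).2
    rcases hloc e with hn | hb
    · obtain ⟨r, hr⟩ := hn
      have h3 : ∀ r : ℕ, π ∘ₗ ((e ^ r : Module.End A Q) : Q →ₗ[A] Q) = π := by
        intro r
        induction r with
        | zero => rfl
        | succ r ih =>
          rw [pow_succ']
          change (π ∘ₗ e) ∘ₗ ((e ^ r : Module.End A Q) : Q →ₗ[A] Q) = π
          rw [h1, ih]
      apply hπ
      rw [← h3 r]
      change π ∘ₗ ((e ^ r : Module.End A Q) : Q →ₗ[A] Q) = 0
      rw [show ((e ^ r : Module.End A Q) : Q →ₗ[A] Q) = 0 from hr, LinearMap.comp_zero]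
    · apply hπ'
      apply LinearMap.ext
      intro v
      obtain ⟨w, rfl⟩ := hb.2 v
      exact LinearMap.congr_fun h2 w

/-- `Hom(P,K)` is the kernel of `Hom(P,X) → Hom(P,X/K)` -/
theorem w6_ker {X : Type u} [AddCommGroup X] [Module A X] (K : Submodule A X) :
    Nonempty (HomP A P K ≃ₗ[Ce A P]
      LinearMap.ker (mapH K.mkQ : HomP A P X →ₗ[Ce A P] HomP A P (X ⧸ K))) := by
  have hinj : Function.Injective (mapH K.subtype : HomP A P K →ₗ[Ce A P] HomP A P X) := by
    intro φ ψ h
    apply LinearMap.ext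
    intro v
    exact Subtype.ext (LinearMap.congr_fun h v)
  have hr : LinearMap.range (mapH K.subtype : HomP A P K →ₗ[Ce A P] HomP A P X) =
      LinearMap.ker (mapH K.mkQ : HomP A P X →ₗ[Ce A P] HomP A P (X ⧸ K)) := by
    ext φ
    constructor
    · rintro ⟨ψ, rfl⟩
      apply LinearMap.ext
      intro v
      exact (Submodule.Quotient.mk_eq_zero K).2 ((show P →ₗ[A] K from ψ) v).2
    · intro h
      have h1 : ∀ v, (show P →ₗ[A] X from φ) v ∈ K := fun v =>
        (Submodule.Quotient.mk_eq_zero K).1 (LinearMap.congr_fun h v)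
      exact ⟨LinearMap.codRestrict K (show P →ₗ[A] X from φ) h1, LinearMap.ext fun v => rfl⟩
  exact ⟨(LinearEquiv.ofInjective _ hinj).trans (LinearEquiv.ofEq _ _ hr)⟩

theorem w6_mkQ_surj {x : Fin n → ℤ} (hP : Prg k p x P) {X : Type u} [AddCommGroup X] [Module A X]
    [Module k X] [IsScalarTower k A X] [Module.Finite k X] {Y : Type u} [AddCommGroup Y]
    [Module A Y] [Module k Y] [IsScalarTower k A Y] [Module.Finite k Y] (hX : Ws k p x X)
    (hY : Ws k p x Y) (f : X →ₗ[A] Y) (hf : Function.Surjective f) :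
    Function.Surjective (mapH f : HomP A P X →ₗ[Ce A P] HomP A P Y) := by
  intro θ
  obtain ⟨θ', hθ'⟩ := hP.proj X Y f hf hX hY (show P →ₗ[A] Y from θ)
  exact ⟨θ', hθ'⟩

/-- isomorphic modules have isomorphic `Hom(P,.)` -/
theorem w6_congr {X Y : Type u} [AddCommGroup X] [Module A X] [AddCommGroup Y] [Module A Y]
    (e : X ≃ₗ[A] Y) : Nonempty (HomP A P X ≃ₗ[Ce A P] HomP A P Y) :=
  ⟨LinearEquiv.ofLinear (mapH e.toLinearMap) (mapH e.symm.toLinearMap)
    (LinearMap.ext fun φ => LinearMap.ext fun v => e.apply_symm_apply _)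
    (LinearMap.ext fun φ => LinearMap.ext fun v => e.symm_apply_apply _)⟩

/-- the multiplicities over `C` are given by the dual classes -/
theorem w6_dim (hp : Bas k p) {x : Fin n → ℤ} (hP : Prg k p x P) {m : ℕ}
    {q : Fin m → Submodule (Ce A P) (Ce A P)} (hq : Bas k q) (i : Fin m)
    {T : Type u} [AddCommGroup T] [Module (Ce A P) T] [Module k T] [IsScalarTower k (Ce A P) T]
    [Module.Finite k T] [IsSimpleModule (Ce A P) T] (hT : finrank k (q i →ₗ[Ce A P] T) = 1)
    {V : Type u} [AddCommGroup V] [Module A V] [Module k V] [IsScalarTower k A V]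
    [Module.Finite k V] (hV : St k p x V) (e : T ≃ₗ[Ce A P] HomP A P V) {y : Fin n → ℤ}
    (hd : Dl k p x V y) (X : Type u) [AddCommGroup X] [Module A X] [Module k X]
    [IsScalarTower k A X] [Module.Finite k X] (hX : Ws k p x X) :
    (finrank k (q i →ₗ[Ce A P] HomP A P X) : ℤ) = br k p y X := by
  haveI := hq.proj i
  have hst : ∀ (S : Type u) [AddCommGroup S] [Module A S] [Module k S] [IsScalarTower k A S]
      [Module.Finite k S], St k p x S →
      (finrank k (q i →ₗ[Ce A P] HomP A P S) : ℤ) = br k p y S := by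
    intro S _ _ _ _ _ hS
    by_cases hVS : Nonempty (V ≃ₗ[A] S)
    · obtain ⟨f⟩ := hVS
      obtain ⟨g⟩ := w6_congr (P := P) f
      rw [← p3_finrank_congr (q i) g, ← p3_finrank_congr (q i) e, hT, ← br_congr y f, hd.one]
      rfl
    · have hne : IsEmpty (V ≃ₗ[A] S) := not_nonempty_iff.1 hVS
      rw [hd.zero S hS hne]
      have h0 : ∀ π' : q i →ₗ[Ce A P] HomP A P S, π' = 0 := by
        intro π'
        by_contra hπ'
        haveI := simple_of_stable hp hP hS
        obtain ⟨π, hπ⟩ := p3_exists_ne hT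
        obtain ⟨g⟩ := w6_top (hq.loc i) π hπ π' hπ'
        exact hVS (iso_of_iso hp hP (hV.ws hp) (hS.ws hp) ⟨e.symm.trans g⟩)
      haveI : Subsingleton (q i →ₗ[Ce A P] HomP A P S) := ⟨fun a b => by rw [h0 a, h0 b]⟩
      rw [Module.finrank_zero_of_subsingleton]
      rfl
  refine Ws_rec (C := fun X _ _ _ _ _ =>
    (finrank k (q i →ₗ[Ce A P] HomP A P X) : ℤ) = br k p y X) hp ?_ ?_ X hX
  · intro X _ _ _ _ _ hs
    haveI : Subsingleton (HomP A P X) := ⟨fun φ ψ => LinearMap.ext fun v => Subsingleton.elim _ _⟩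
    haveI : Subsingleton (q i →ₗ[Ce A P] HomP A P X) :=
      ⟨fun φ ψ => LinearMap.ext fun v => Subsingleton.elim _ _⟩
    rw [br_subsingleton, Module.finrank_zero_of_subsingleton]
    rfl
  · intro X _ _ _ _ _ K hX hK hS ih
    obtain ⟨e1⟩ := w6_ker (P := P) K
    have hs := w6_mkQ_surj hP hX (hS.ws hp) K.mkQ K.mkQ_surjective
    have h1 := hom_add (k := k) (P₀ := q i)
      (LinearMap.ker (mapH K.mkQ : HomP A P X →ₗ[Ce A P] HomP A P (X ⧸ K)))
    rw [← p3_finrank_congr (q i) e1, p3_finrank_congr (q i)
      (LinearMap.quotKerEquivOfSurjective _ hs)] at h1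
    rw [br_add hp y K, ← ih, ← hst _ hS, h1]
    push_cast
    rfl

theorem nse_C [Infinite k] [IsAlgClosed k] (hp : Bas k p) (hfin : FinB k A) (hN : NSE k p)
    {x : Fin n → ℤ} (hP : Prg k p x P) {m : ℕ} (q : Fin m → Submodule (Ce A P) (Ce A P)) (hq : Bas k q) :
    NSE k q := by
  intro z S Z _ _ _ _ _ _ _ _ _ _ hS ι hι σ hσ hex
  obtain ⟨X, i1, i2, i3, i4, i5, hX, -, ⟨eX⟩⟩ := ess_surj (k := k) hp hP S
  obtain ⟨Y, j1, j2, j3, j4, j5, hY, -, ⟨eY⟩⟩ := ess_surj (k := k) hp hP Z
  -- the class
  have hdual : ∀ i, ∃ y : Fin n → ℤ, ∀ (X : Type u) [AddCommGroup X] [Module A X] [Module k X]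
      [IsScalarTower k A X] [Module.Finite k X], Ws k p x X →
      (finrank k (q i →ₗ[Ce A P] HomP A P X) : ℤ) = br k p y X := by
    intro i
    obtain ⟨T, a1, a2, a3, a4, a5, hsT, hT⟩ := hq.dual i
    obtain ⟨V, b1, b2, b3, b4, b5, hV, ⟨e⟩⟩ := stable_of_simple hp hP T
    obtain ⟨y, hd⟩ := exists_dual hp hfin hV
    have hT1 : finrank k (q i →ₗ[Ce A P] T) = 1 := by rw [hT i, if_pos rfl]
    exact ⟨y, fun X => by
      intros
      exact w6_dim hp hP hq i hT1 hV e hd X ‹_›⟩
  choose y hy using hdual
  let w : Fin n → ℤ := ∑ i, z i • y i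
  have hw : ∀ (X : Type u) [AddCommGroup X] [Module A X] [Module k X]
      [IsScalarTower k A X] [Module.Finite k X], Ws k p x X →
      br k p w X = br k q z (HomP A P X) := by
    intro X _ _ _ _ _ hX
    change br k p (∑ i, z i • y i) X = _
    rw [br_sum_left]
    unfold br
    refine Finset.sum_congr rfl fun i _ => ?_
    rw [hy i X hX]
    exact br_zsmul_left (z i) (y i)
  have hSX : St k q z (HomP A P X) := hS.congr eX.symm
  obtain ⟨C, hC⟩ := br_bound hp w X
  have hstab : St k p ((C + 1) • x + w) X := by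
    refine ⟨?_, ?_, ?_⟩
    · by_contra h
      rw [not_nontrivial_iff_subsingleton] at h
      have hsub : Subsingleton (HomP A P X) :=
        ⟨fun φ ψ => LinearMap.ext fun v => Subsingleton.elim _ _⟩
      have := hSX.nt
      exact not_subsingleton _ hsub
    · rw [br_add_left, br_nsmul_left, Ws_br hX, mul_zero, zero_add, hw X hX, hSX.zero]
    · intro K h0 h1
      rw [br_add_left, br_nsmul_left]
      rcases (hX.2 K).lt_or_eq with h2 | h2
      · have h3 := (abs_le.1 (hC K).2).2
        push_cast
        nlinarith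
      · have hK := (Ws_sub hp hX K h2).1
        have hQ := (Ws_sub hp hX K h2).2
        rw [h2, mul_zero, zero_add, hw K hK]
        haveI : Nontrivial K := (Submodule.nontrivial_iff_ne_bot).2 h0
        haveI := hom_nontrivial hP hK
        have hinj : Function.Injective (mapH K.subtype : HomP A P K →ₗ[Ce A P] HomP A P X) := by
          intro φ ψ h
          apply LinearMap.ext
          intro v
          exact Subtype.ext (LinearMap.congr_fun h v)
        rw [br_congr z (LinearEquiv.ofInjective _ hinj)]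
        refine hSX.neg _ ?_ ?_
        · intro hb
          obtain ⟨φ, hφ⟩ := exists_ne (0 : HomP A P K)
          apply hφ
          apply hinj
          rw [map_zero]
          exact LinearMap.congr_fun (LinearMap.range_eq_bot.1 hb) φ
        · intro ht
          apply h1
          have h4 : (mapH K.mkQ : HomP A P X →ₗ[Ce A P] HomP A P (X ⧸ K)) = 0 := by
            apply LinearMap.ext
            intro φ
            obtain ⟨ψ, rfl⟩ := LinearMap.range_eq_top.1 ht φ
            apply LinearMap.ext
            intro v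
            exact (Submodule.Quotient.mk_eq_zero K).2 ((show P →ₗ[A] K from ψ) v).2
          have h5 := faithful hP hX K.mkQ h4
          rw [Submodule.eq_top_iff']
          intro v
          exact (Submodule.Quotient.mk_eq_zero K).1 (LinearMap.congr_fun h5 v)
  -- the extension
  obtain ⟨ι', hι'⟩ := full hp hP hX hY ((eY.symm.toLinearMap ∘ₗ ι) ∘ₗ eX.toLinearMap)
  obtain ⟨σ', hσ'⟩ := full hp hP hY hX ((eX.symm.toLinearMap ∘ₗ σ) ∘ₗ eY.toLinearMap)
  have hιi : Function.Injective (mapH ι' : HomP A P X →ₗ[Ce A P] HomP A P Y) := by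
    rw [← hι']
    exact (eY.symm.injective.comp hι).comp eX.injective
  have hσs : Function.Surjective (mapH σ' : HomP A P Y →ₗ[Ce A P] HomP A P X) := by
    rw [← hσ']
    exact (eX.symm.surjective.comp hσ).comp eY.surjective
  have hexH : ∀ φ : HomP A P Y, (mapH σ' : HomP A P Y →ₗ[Ce A P] HomP A P X) φ = 0 ↔
      ∃ ψ : HomP A P X, (mapH ι' : HomP A P X →ₗ[Ce A P] HomP A P Y) ψ = φ := by
    intro φ
    rw [← hσ', ← hι']
    constructor
    · intro h
      have h1 : σ (eY φ) = 0 := (LinearEquiv.map_eq_zero_iff eX.symm).1 h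
      have h2 : eY φ ∈ LinearMap.range ι := by
        rw [hex]
        exact h1
      obtain ⟨s, hs⟩ := h2
      refine ⟨eX.symm s, ?_⟩
      change eY.symm (ι (eX (eX.symm s))) = φ
      rw [LinearEquiv.apply_symm_apply, hs, LinearEquiv.symm_apply_apply]
    · rintro ⟨ψ, rfl⟩
      change eX.symm (σ (eY (eY.symm (ι (eX ψ))))) = 0
      rw [LinearEquiv.apply_symm_apply]
      have h2 : ι (eX ψ) ∈ LinearMap.ker σ := by
        rw [← hex]
        exact ⟨_, rfl⟩
      rw [show σ (ι (eX ψ)) = 0 from h2, map_zero]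
  have hinj : Function.Injective ι' := by
    rw [← LinearMap.ker_eq_bot]
    by_contra hne
    haveI : Nontrivial (LinearMap.ker ι') := (Submodule.nontrivial_iff_ne_bot).2 hne
    haveI := hom_nontrivial hP (Ws_ker hp ι' hX hY)
    obtain ⟨φ, hφ⟩ := exists_ne (0 : HomP A P (LinearMap.ker ι'))
    have h1 : mapH ι' ((LinearMap.ker ι').subtype ∘ₗ (show P →ₗ[A] LinearMap.ker ι' from φ) :
        P →ₗ[A] X) = mapH ι' (0 : P →ₗ[A] X) := by
      apply LinearMap.ext
      intro v
      change ι' ((show P →ₗ[A] LinearMap.ker ι' from φ) v : X) = ι' 0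
      rw [map_zero]
      exact ((show P →ₗ[A] LinearMap.ker ι' from φ) v).2
    have h2 := hιi h1
    apply hφ
    apply LinearMap.ext
    intro v
    exact Subtype.ext (LinearMap.congr_fun h2 v)
  have hsurj : Function.Surjective σ' := by
    rw [← LinearMap.range_eq_top]
    have h4 : (mapH (LinearMap.range σ').mkQ : HomP A P X →ₗ[Ce A P]
        HomP A P (X ⧸ LinearMap.range σ')) = 0 := by
      apply LinearMap.ext
      intro φ
      obtain ⟨ψ, rfl⟩ := hσs φ
      apply LinearMap.ext
      intro v
      exact (Submodule.Quotient.mk_eq_zero _).2 ⟨_, rfl⟩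
    have h5 := faithful hP hX (LinearMap.range σ').mkQ h4
    rw [Submodule.eq_top_iff']
    intro v
    exact (Submodule.Quotient.mk_eq_zero _).1 (LinearMap.congr_fun h5 v)
  have hle : ∀ v, σ' (ι' v) = 0 := by
    have h1 : (mapH (σ' ∘ₗ ι') : HomP A P X →ₗ[Ce A P] HomP A P X) = 0 := by
      apply LinearMap.ext
      intro φ
      exact (hexH _).2 ⟨φ, rfl⟩
    intro v
    exact LinearMap.congr_fun (faithful hP hX _ h1) v
  have hexA : LinearMap.range ι' = LinearMap.ker σ' := by
    apply le_antisymm
    · rintro _ ⟨v, rfl⟩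
      exact hle v
    · let j : X →ₗ[A] LinearMap.ker σ' := LinearMap.codRestrict _ ι' hle
      have hkW := Ws_ker hp σ' hY hX
      have h4 : (mapH (LinearMap.range j).mkQ : HomP A P (LinearMap.ker σ') →ₗ[Ce A P]
          HomP A P (LinearMap.ker σ' ⧸ LinearMap.range j)) = 0 := by
        apply LinearMap.ext
        intro φ
        have h6 : (mapH σ' : HomP A P Y →ₗ[Ce A P] HomP A P X)
            ((LinearMap.ker σ').subtype ∘ₗ (show P →ₗ[A] LinearMap.ker σ' from φ) :
              P →ₗ[A] Y) = 0 := by
          apply LinearMap.ext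
          intro v
          exact ((show P →ₗ[A] LinearMap.ker σ' from φ) v).2
        obtain ⟨ψ, hψ⟩ := (hexH _).1 h6
        apply LinearMap.ext
        intro v
        refine (Submodule.Quotient.mk_eq_zero _).2 ⟨(show P →ₗ[A] X from ψ) v, ?_⟩
        exact Subtype.ext (LinearMap.congr_fun hψ v)
      have h5 := faithful hP hkW (LinearMap.range j).mkQ h4
      intro v hv
      obtain ⟨u, hu⟩ := (Submodule.Quotient.mk_eq_zero _).1 (LinearMap.congr_fun h5 ⟨v, hv⟩)
      exact ⟨u, congrArg Subtype.val hu⟩
  obtain ⟨s, hs⟩ := hN _ X Y hstab ι' hinj σ' hsurj hexA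
  refine ⟨(eY.toLinearMap ∘ₗ mapH s) ∘ₗ eX.symm.toLinearMap, ?_⟩
  apply LinearMap.ext
  intro v
  have h7 : (mapH σ' : HomP A P Y →ₗ[Ce A P] HomP A P X) (mapH s (eX.symm v)) = eX.symm v := by
    apply LinearMap.ext
    intro t
    exact LinearMap.congr_fun hs _
  rw [← hσ'] at h7
  have h8 : eX.symm (σ (eY (mapH s (eX.symm v)))) = eX.symm v := h7
  exact eX.symm.injective h8

end

end TB4
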