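import Pool.Agent.LibTB3.R2
import Pool.Agent.LibTB3.N3
/-!
ROW [TB4 W8] MEDIUM.
(cite N1-N3, R2) integer weights on idempotents and classes; representations.
PLAN. exists_class_of_weights: for an idempotent e the left ideal Ae = {a | a e = a} is a projective module, Hom(Ae, X) ≃ e X (h ↦ h e), so hp.ty gives t with dim e X = ∑ t i dim Hom(p i, X); x i = ∑_j c j * t_j i.
e X = LinearMap.range of (e • ·) : X →ₗ[k] X.
th_eq: for ρ : A → End(k^d) and an invariant subspace U (∀ a, U.map (ρ a) ≤ U) let N : Submodule A (Vm ρ) be U; then U.map (ρ e) ≃ range of (e • ·) on N, so ∑ c j * finrank (U.map (ρ (e j))) = br k p x N.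
inv_iff: submodules of Vm ρ = invariant subspaces.
semi_iff, stab_iff: statement-level semistability = Ws, St.  For Ws: H0c x X and br x X = 0 ⟺ Ws (Ws_of_H0c, Ws_br).
-/
set_option autoImplicit false
universe u
namespace TB4
open Module TB10 TB3

section
variable {k : Type u} [Field k] {A : Type u} [Ring A] [Algebra k A]
variable {n : ℕ} {p : Fin n → Submodule A A} [Module.Finite k A]

/-- `θ(U) = ∑ c j * dim e_j U` for a subspace `U` of the representation `ρ` -/
noncomputable def th {d r : ℕ} (e : Fin r → A) (c : Fin r → ℤ)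
    (ρ : A →ₐ[k] Module.End k (Fin d → k)) (U : Submodule k (Fin d → k)) : ℤ :=
  ∑ j, c j * (finrank k (U.map (ρ (e j))) : ℤ)

/-- `ρ` is `θ`-semistable -/
def Semi {d r : ℕ} (e : Fin r → A) (c : Fin r → ℤ) (ρ : A →ₐ[k] Module.End k (Fin d → k)) : Prop :=
  th e c ρ ⊤ = 0 ∧ ∀ U : Submodule k (Fin d → k), (∀ a, U.map (ρ a) ≤ U) → th e c ρ U ≤ 0

/-- `ρ` is `θ`-stable -/
def Stab {d r : ℕ} (e : Fin r → A) (c : Fin r → ℤ) (ρ : A →ₐ[k] Module.End k (Fin d → k)) : Prop :=
  0 < d ∧ th e c ρ ⊤ = 0 ∧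
    ∀ U : Submodule k (Fin d → k), (∀ a, U.map (ρ a) ≤ U) → U ≠ ⊥ → U ≠ ⊤ → th e c ρ U < 0

/-- the left ideal `A e` -/
private def w8_P {A : Type u} [Ring A] (e : A) : Submodule A A :=
  LinearMap.range (LinearMap.toSpanSingleton A A e)

private theorem w8_mem {A : Type u} [Ring A] (e : A) (he : e * e = e) (a : A) :
    a ∈ w8_P e ↔ a * e = a := by
  unfold w8_P
  constructor
  · rintro ⟨b, rfl⟩
    simp [LinearMap.toSpanSingleton_apply, mul_assoc, he]
  · intro h
    exact ⟨a, by simpa [LinearMap.toSpanSingleton_apply] using h⟩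

private theorem w8_proj {A : Type u} [Ring A] (e : A) (he : e * e = e) :
    Module.Projective A (w8_P e) := by
  refine Module.Projective.of_split (w8_P e).subtype
    ((LinearMap.toSpanSingleton A A e).codRestrict (w8_P e) (fun a => ⟨a, rfl⟩)) ?_
  ext x
  have := (w8_mem e he x.1).mp x.2
  simpa [LinearMap.toSpanSingleton_apply] using this

private theorem w8_fin {k : Type u} [Field k] {A : Type u} [Ring A] [Algebra k A]
    (e : A) (he : e * e = e) (X : Type u) [AddCommGroup X] [Module A X]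
    [Module k X] [IsScalarTower k A X] :
    finrank k (w8_P e →ₗ[A] X) = finrank k (LinearMap.range (Algebra.lsmul k k X e)) := by
  have hee : e ∈ w8_P e := (w8_mem e he e).mpr he
  let f : (w8_P e →ₗ[A] X) →ₗ[k] X :=
    { toFun := fun h => h ⟨e, hee⟩
      map_add' := fun _ _ => rfl
      map_smul' := fun _ _ => rfl }
  have hval : ∀ (h : w8_P e →ₗ[A] X) (a : w8_P e), h a = (a : A) • h ⟨e, hee⟩ := by
    intro h a
    rw [← map_smul]
    congr 1
    apply Subtype.ext
    exact ((w8_mem e he a.1).mp a.2).symm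
  have hf : Function.Injective f := by
    intro h h' hh
    ext a
    rw [hval h a, hval h' a]
    exact congrArg _ hh
  have hr : LinearMap.range f = LinearMap.range (Algebra.lsmul k k X e) := by
    apply le_antisymm
    · rintro _ ⟨h, rfl⟩
      refine ⟨h ⟨e, hee⟩, ?_⟩
      change e • h ⟨e, hee⟩ = h ⟨e, hee⟩
      exact (hval h ⟨e, hee⟩).symm
    · rintro _ ⟨x, rfl⟩
      refine ⟨(LinearMap.toSpanSingleton A X x) ∘ₗ (w8_P e).subtype, ?_⟩
      change e • x = e • x
      rfl
  rw [← hr]
  exact (LinearMap.finrank_range_of_inj hf).symm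

private theorem w8_br (hp : Bas k p) {r : ℕ} (e : Fin r → A) (he : ∀ j, e j * e j = e j)
    (c : Fin r → ℤ) : ∃ x : Fin n → ℤ,
    ∀ (X : Type u) [AddCommGroup X] [Module A X] [Module k X] [IsScalarTower k A X]
      [Module.Finite k X],
      br k p x X = ∑ j, c j * (finrank k (LinearMap.range (Algebra.lsmul k k X (e j))) : ℤ) := by
  have h : ∀ j, ∃ t : Fin n → ℕ,
      ∀ (X : Type u) [AddCommGroup X] [Module A X] [Module k X] [IsScalarTower k A X]
      [Module.Finite k X], finrank k (w8_P (e j) →ₗ[A] X) = ∑ i, t i * finrank k (p i →ₗ[A] X) := by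
    intro j
    haveI := w8_proj (e j) (he j)
    exact hp.ty (w8_P (e j))
  choose t ht using h
  refine ⟨fun i => ∑ j, c j * (t j i : ℤ), ?_⟩
  intro X _ _ _ _ _
  have h2 : ∀ j, (finrank k (LinearMap.range (Algebra.lsmul k k X (e j))) : ℤ)
      = ∑ i, (t j i : ℤ) * (finrank k (p i →ₗ[A] X) : ℤ) := by
    intro j
    rw [← w8_fin (e j) (he j) X, ht j X]
    push_cast
    rfl
  unfold br
  simp_rw [h2, Finset.sum_mul, Finset.mul_sum]
  rw [Finset.sum_comm]
  refine Finset.sum_congr rfl fun j _ => Finset.sum_congr rfl fun i _ => ?_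
  ring

private theorem w8_th {k : Type u} [Field k] {A : Type u} [Ring A] [Algebra k A] {d : ℕ} (a : A)
    (ρ : A →ₐ[k] Module.End k (Fin d → k)) (N : Submodule A (Vm ρ))
    (U : Submodule k (Fin d → k)) (h : ∀ v : Fin d → k, v ∈ U ↔ (show Vm ρ from v) ∈ N) :
    finrank k (U.map (ρ a)) = finrank k (LinearMap.range (Algebra.lsmul k k N a)) := by
  let g : N →ₗ[k] (Fin d → k) :=
    { toFun := fun v => (show Fin d → k from (v : Vm ρ))
      map_add' := fun _ _ => rfl
      map_smul' := fun _ _ => rfl }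
  have hg : Function.Injective g := fun v w hvw => Subtype.ext hvw
  have hr : (LinearMap.range (Algebra.lsmul k k N a)).map g = U.map (ρ a) := by
    apply le_antisymm
    · rintro _ ⟨_, ⟨v, rfl⟩, rfl⟩
      exact ⟨(show Fin d → k from (v : Vm ρ)), (h _).mpr v.2, rfl⟩
    · rintro _ ⟨v, hv, rfl⟩
      exact ⟨a • (⟨v, (h v).mp hv⟩ : N), ⟨_, rfl⟩, rfl⟩
  rw [← hr]
  exact (Submodule.equivMapOfInjective g hg _).finrank_eq.symm

private theorem w8_thN {k : Type u} [Field k] {A : Type u} [Ring A] [Algebra k A] {n : ℕ}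
    {p : Fin n → Submodule A A} {d r : ℕ} (e : Fin r → A) (c : Fin r → ℤ) (x : Fin n → ℤ)
    (hx : ∀ (X : Type u) [AddCommGroup X] [Module A X] [Module k X] [IsScalarTower k A X]
      [Module.Finite k X],
      br k p x X = ∑ j, c j * (finrank k (LinearMap.range (Algebra.lsmul k k X (e j))) : ℤ))
    (ρ : A →ₐ[k] Module.End k (Fin d → k)) (N : Submodule A (Vm ρ))
    (U : Submodule k (Fin d → k)) (h : ∀ v : Fin d → k, v ∈ U ↔ (show Vm ρ from v) ∈ N) :
    th e c ρ U = br k p x N := by
  rw [hx N]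
  unfold th
  refine Finset.sum_congr rfl fun j _ => ?_
  rw [w8_th (e j) ρ N U h]

/-- the submodule of an invariant subspace -/
private def w8_N {k : Type u} [Field k] {A : Type u} [Ring A] [Algebra k A] {d : ℕ}
    (ρ : A →ₐ[k] Module.End k (Fin d → k)) (U : Submodule k (Fin d → k))
    (hU : ∀ a, U.map (ρ a) ≤ U) : Submodule A (Vm ρ) where
  carrier := {v | (show Fin d → k from v) ∈ U}
  add_mem' := fun ha hb => U.add_mem ha hb
  zero_mem' := U.zero_mem
  smul_mem' := fun a v hv => hU a ⟨v, hv, rfl⟩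

/-- the invariant subspace of a submodule -/
private def w8_U {k : Type u} [Field k] {A : Type u} [Ring A] [Algebra k A] {d : ℕ}
    (ρ : A →ₐ[k] Module.End k (Fin d → k)) (N : Submodule A (Vm ρ)) :
    Submodule k (Fin d → k) where
  carrier := {v | (show Vm ρ from v) ∈ N}
  add_mem' := fun ha hb => N.add_mem ha hb
  zero_mem' := N.zero_mem
  smul_mem' := fun a v hv => N.smul_of_tower_mem a hv

private theorem w8_U_inv {k : Type u} [Field k] {A : Type u} [Ring A] [Algebra k A] {d : ℕ}
    (ρ : A →ₐ[k] Module.End k (Fin d → k)) (N : Submodule A (Vm ρ)) (a : A) :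
    (w8_U ρ N).map (ρ a) ≤ w8_U ρ N := by
  rintro _ ⟨v, hv, rfl⟩
  exact N.smul_mem a hv

theorem exists_class_of_weights (hp : Bas k p) {r : ℕ} (e : Fin r → A) (he : ∀ j, e j * e j = e j)
    (c : Fin r → ℤ) : ∃ x : Fin n → ℤ,
    (∀ (d : ℕ) (ρ : A →ₐ[k] Module.End k (Fin d → k)), Semi e c ρ ↔ Ws k p x (Vm ρ)) ∧
    (∀ (d : ℕ) (ρ : A →ₐ[k] Module.End k (Fin d → k)), Stab e c ρ ↔ St k p x (Vm ρ)) := by
  obtain ⟨x, hx⟩ := w8_br hp e he c
  have htop : ∀ (d : ℕ) (ρ : A →ₐ[k] Module.End k (Fin d → k)),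
      th e c ρ ⊤ = br k p x (Vm ρ) := by
    intro d ρ
    rw [w8_thN e c x hx ρ ⊤ ⊤ (fun v => by simp)]
    exact br_congr x (Submodule.topEquiv (R := A) (M := Vm ρ))
  refine ⟨x, ?_, ?_⟩
  · intro d ρ
    constructor
    · rintro ⟨h1, h2⟩
      rw [htop d ρ] at h1
      refine Ws_of_H0c hp ?_ (le_of_eq h1.symm)
      intro K
      rw [← w8_thN e c x hx ρ K (w8_U ρ K) (fun v => Iff.rfl)]
      exact h2 (w8_U ρ K) (w8_U_inv ρ K)
    · intro h
      refine ⟨?_, ?_⟩
      · rw [htop d ρ]; exact Ws_br h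
      · intro U hU
        rw [w8_thN e c x hx ρ (w8_N ρ U hU) U (fun v => Iff.rfl)]
        exact h.2 (w8_N ρ U hU)
  · intro d ρ
    constructor
    · rintro ⟨h0, h1, h2⟩
      rw [htop d ρ] at h1
      refine ⟨?_, h1, ?_⟩
      · haveI : Nonempty (Fin d) := ⟨⟨0, h0⟩⟩
        exact inferInstanceAs (Nontrivial (Fin d → k))
      · intro K hb ht
        rw [← w8_thN e c x hx ρ K (w8_U ρ K) (fun v => Iff.rfl)]
        refine h2 (w8_U ρ K) (w8_U_inv ρ K) ?_ ?_
        · intro hh
          apply hb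
          rw [eq_bot_iff]
          intro v hv
          have h3 : (show Fin d → k from v) ∈ w8_U ρ K := hv
          rw [hh] at h3
          exact h3
        · intro hh
          apply ht
          rw [eq_top_iff]
          intro v _
          have h3 : (show Fin d → k from v) ∈ w8_U ρ K := by rw [hh]; trivial
          exact h3
    · intro h
      refine ⟨?_, ?_, ?_⟩
      · rcases Nat.eq_zero_or_pos d with h0 | h0
        · subst h0
          have hss : Subsingleton (Vm ρ) := inferInstanceAs (Subsingleton (Fin 0 → k))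
          haveI := h.nt
          exact absurd hss (not_subsingleton (Vm ρ))
        · exact h0
      · rw [htop d ρ]; exact h.zero
      · intro U hU hb ht
        rw [w8_thN e c x hx ρ (w8_N ρ U hU) U (fun v => Iff.rfl)]
        refine h.neg (w8_N ρ U hU) ?_ ?_
        · intro hh
          apply hb
          rw [eq_bot_iff]
          intro v hv
          have h3 : (show Vm ρ from v) ∈ w8_N ρ U hU := hv
          rw [hh] at h3
          exact h3
        · intro hh
          apply ht
          rw [eq_top_iff]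
          intro v _
          have h3 : (show Vm ρ from v) ∈ w8_N ρ U hU := by rw [hh]; trivial
          exact h3

end

end TB4
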