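import Pool.Agent.LibTB4.W1
import Pool.Agent.LibTB4.W5
import Pool.Agent.LibTB4.W6
import Pool.Agent.LibTB4.W8
import Pool.Agent.LibTB4.W10
import Pool.Agent.LibTB3.F1
/-!
Assembly of the relative version (helper10).
-/
set_option autoImplicit false
universe u
namespace TB4
open Module TB10 TB3

theorem not_infBricks {k A : Type u} [Field k] [Ring A] [Algebra k A] {L : List (Rp k A)} {d : ℕ}
    (hL : Cov k A d L) : ¬ InfBricks k A d := by
  rintro ⟨B, hB, hne⟩
  have h1 : ∀ n, ∃ r : {r : Rp k A // r ∈ L}, Nonempty (Vm (B n) ≃ₗ[A] Vm r.1.2) := by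
    intro n
    have hfr : finrank k (Vm (B n)) ≤ d := by
      change finrank k (Fin d → k) ≤ d
      simp
    obtain ⟨r, hr, he⟩ := hL (Vm (B n)) (hB n) hfr
    exact ⟨⟨r, hr⟩, he⟩
  choose f hf using h1
  have hfin : Finite {r : Rp k A // r ∈ L} := List.finite_toSet L
  obtain ⟨i, j, hij, hfij⟩ := Finite.exists_ne_map_eq_of_infinite f
  rcases lt_or_gt_of_ne hij with h | h
  · obtain ⟨e⟩ := hf i
    obtain ⟨e'⟩ := hf j
    rw [hfij] at e
    exact (hne i j h).false (e.trans e'.symm)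
  · obtain ⟨e⟩ := hf i
    obtain ⟨e'⟩ := hf j
    rw [hfij] at e
    exact (hne j i h).false (e'.trans e.symm)

theorem red_class (k : Type u) [Field k] [IsAlgClosed k] (A : Type u) [Ring A] [Algebra k A]
    [Module.Finite k A] {n : ℕ} (p : Fin n → Submodule A A) (hp : Bas k p) (x : Fin n → ℤ)
    (m : ℕ) (V : Fin m → Rp k A) (hV : ∀ i, St k p x (Vm (V i).2))
    (hne : ∀ i j, i ≠ j → IsEmpty (Vm (V i).2 ≃ₗ[A] Vm (V j).2))
    (hall : ∀ (S : Type u) [AddCommGroup S] [Module A S] [Module k S] [IsScalarTower k A S]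
      [Module.Finite k S], St k p x S → ∃ i, Nonempty (S ≃ₗ[A] Vm (V i).2))
    (hm : m = 2 ∨ m = 3 ∧ (FinB k A → NSE k p))
    (hinf : ∃ B : ℕ → Rp k A, (∀ i, IsBrick A (Vm (B i).2) ∧ Ws k p x (Vm (B i).2)) ∧
      ∀ i j, i < j → IsEmpty (Vm (B i).2 ≃ₗ[A] Vm (B j).2)) :
    ∃ d, InfBricks k A d := by
  by_contra hcon
  push Not at hcon
  have : Infinite k := IsAlgClosed.instInfinite
  have hfin : FinB k A := fun D => exists_cov D (fun d _ => hcon d)
  obtain ⟨P, _, _, _, _, _, hP⟩ := exists_prg hp hfin x V hV hall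
  have hC : FinB k (Ce A P) := fin_C hp hP hfin
  have hI : InfBricksAll k (Ce A P) := inf_C hp hP hinf
  have hs : ∀ i, IsSimpleModule (Ce A P) (HomP A P (Vm (V i).2)) :=
    fun i => simple_of_stable hp hP (hV i)
  have hn : ∀ i j, i ≠ j →
      IsEmpty (HomP A P (Vm (V i).2) ≃ₗ[Ce A P] HomP A P (Vm (V j).2)) := by
    intro i j hij
    refine ⟨fun e => ?_⟩
    obtain ⟨e'⟩ := iso_of_iso hp hP ((hV i).ws hp) ((hV j).ws hp) ⟨e⟩
    exact (hne i j hij).false e'
  have ha : ∀ (T : Type u) [AddCommGroup T] [Module (Ce A P) T] [IsSimpleModule (Ce A P) T],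
      ∃ i, Nonempty (T ≃ₗ[Ce A P] HomP A P (Vm (V i).2)) := by
    intro T _ _ _
    obtain ⟨X, _, _, _, _, _, hX, ⟨e⟩⟩ := stable_of_simple hp hP T
    obtain ⟨i, ⟨e'⟩⟩ := hall X hX
    have E : Nonempty (HomP A P X ≃ₗ[Ce A P] HomP A P (Vm (V i).2)) := by
      refine ⟨LinearEquiv.ofLinear (mapH (e' : X →ₗ[A] Vm (V i).2))
        (mapH (e'.symm : Vm (V i).2 →ₗ[A] X)) ?_ ?_⟩
      · apply LinearMap.ext
        intro φ
        change ((e' : X →ₗ[A] Vm (V i).2) ∘ₗ ((e'.symm : Vm (V i).2 →ₗ[A] X) ∘ₗ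
          (show P →ₗ[A] Vm (V i).2 from φ)) : P →ₗ[A] Vm (V i).2) = φ
        apply LinearMap.ext
        intro q
        exact e'.apply_symm_apply _
      · apply LinearMap.ext
        intro φ
        change ((e'.symm : Vm (V i).2 →ₗ[A] X) ∘ₗ ((e' : X →ₗ[A] Vm (V i).2) ∘ₗ
          (show P →ₗ[A] X from φ)) : P →ₗ[A] X) = φ
        apply LinearMap.ext
        intro q
        exact e'.symm_apply_apply _
    obtain ⟨E⟩ := E
    exact ⟨i, ⟨e.trans E⟩⟩
  have hex : ∃ d, InfBricks k (Ce A P) d := by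
    rcases hm with rfl | ⟨rfl, hN⟩
    · obtain ⟨d, -, h⟩ := two_simples k (Ce A P) (HomP A P (Vm (V 0).2)) (HomP A P (Vm (V 1).2))
        (hn 0 1 (by decide)) (fun T _ _ _ => by
          obtain ⟨i, hi⟩ := ha T
          fin_cases i
          · exact Or.inl hi
          · exact Or.inr hi) hI
      exact ⟨d, h⟩
    · obtain ⟨q, hq⟩ := exists_bas (k := k) (A := Ce A P) (fun i => HomP A P (Vm (V i).2)) hn ha
      exact three_simples_nse k (Ce A P) q hq (fun _ => nse_C hp hfin (hN hfin) hP q hq) hI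
  obtain ⟨d, h⟩ := hex
  obtain ⟨L, hL⟩ := hC d
  exact not_infBricks hL h

end TB4
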