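import Pool.Agent.LibTB4.F1
import Pool.Agent.LibTB10.F2
import Pool.Agent.LibTB10.F3
/-!
Corners of quotients, statement-level semistability (helper10).
-/
set_option autoImplicit false
universe u
namespace TB4
open Module TB10 TB3

section
variable {k : Type u} [Field k] {A : Type u} [Ring A] [Algebra k A]

theorem vm_nontrivial {d : ℕ} (ρ : A →ₐ[k] Module.End k (Fin d → k)) (hd : 0 < d) :
    Nontrivial (Vm ρ) := by
  have : Nonempty (Fin d) := ⟨⟨0, hd⟩⟩
  change Nontrivial (Fin d → k)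
  infer_instance

theorem simple_of_stab {d r : ℕ} (e : Fin r → A) (c : Fin r → ℤ) (hc : ∀ j, c j = 0)
    (ρ : A →ₐ[k] Module.End k (Fin d → k)) (h : Stab e c ρ) : IsSimpleModule A (Vm ρ) := by
  have hnt := vm_nontrivial ρ h.1
  have hth : ∀ U, th e c ρ U = 0 := by
    intro U
    simp [th, hc]
  have key : ∀ N : Submodule A (Vm ρ), N = ⊥ ∨ N = ⊤ := by
    intro N
    let U : Submodule k (Fin d → k) :=
      { carrier := {v | (show Vm ρ from v) ∈ N}
        add_mem' := fun {v w} hv hw => N.add_mem hv hw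
        zero_mem' := N.zero_mem
        smul_mem' := fun c v hv => by
          have h2 : ((algebraMap k A c) • (show Vm ρ from v)) ∈ N := N.smul_mem _ hv
          rw [algebraMap_smul] at h2
          exact h2 }
    have hU : ∀ a, U.map (ρ a) ≤ U := by
      intro a
      rintro _ ⟨v, hv, rfl⟩
      exact N.smul_mem a hv
    by_contra hcon
    push Not at hcon
    have h3 := h.2.2 U hU (fun h0 => hcon.1 (by
      rw [eq_bot_iff]
      intro v hv
      have : (show Fin d → k from v) ∈ U := hv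
      rw [h0] at this
      exact this)) (fun h0 => hcon.2 (by
      rw [eq_top_iff]
      intro v _
      have : (show Fin d → k from v) ∈ U := by
        rw [h0]
        trivial
      exact this))
    rw [hth] at h3
    exact lt_irrefl _ h3
  haveI : IsSimpleOrder (Submodule A (Vm ρ)) :=
    { exists_pair_ne := ⟨⊥, ⊤, bot_ne_top⟩
      eq_bot_or_eq_top := key }
  exact ⟨⟩

theorem stab_of_simple {d r : ℕ} (e : Fin r → A) (c : Fin r → ℤ) (hc : ∀ j, c j = 0)
    (ρ : A →ₐ[k] Module.End k (Fin d → k)) [IsSimpleModule A (Vm ρ)] : Stab e c ρ := by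
  have hth : ∀ U, th e c ρ U = 0 := by
    intro U
    simp [th, hc]
  have hnt : Nontrivial (Vm ρ) := IsSimpleModule.nontrivial A (Vm ρ)
  refine ⟨?_, hth _, ?_⟩
  · rcases Nat.eq_zero_or_pos d with rfl | h
    · exfalso
      obtain ⟨v, hv⟩ := exists_ne (0 : Vm ρ)
      apply hv
      exact Subsingleton.elim (α := Fin 0 → k) _ _
    · exact h
  · intro U hU h0 h1
    exfalso
    let N : Submodule A (Vm ρ) :=
      { carrier := {v | (show Fin d → k from v) ∈ U}
        add_mem' := fun {v w} hv hw => U.add_mem hv hw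
        zero_mem' := U.zero_mem
        smul_mem' := fun a v hv => hU a ⟨v, hv, rfl⟩ }
    rcases eq_bot_or_eq_top N with h | h
    · apply h0
      rw [eq_bot_iff]
      intro v hv
      have : (show Vm ρ from v) ∈ N := hv
      rw [h] at this
      exact this
    · apply h1
      rw [eq_top_iff]
      intro v _
      have : (show Vm ρ from v) ∈ N := by
        rw [h]
        trivial
      exact this

end

/-- the theorem for one algebra -/
theorem semistable_one (k : Type u) [Field k] [IsAlgClosed k] (B : Type u) [Ring B] [Algebra k B]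
    [Module.Finite k B] (r : ℕ) (e : Fin r → B) (he : ∀ j, e j * e j = e j) (c : Fin r → ℤ)
    (m : ℕ) (S : Fin m → Rp k B) (hS : ∀ i, Stab e c (S i).2)
    (hne : ∀ i j, i ≠ j → ¬ TB10.IsoRep (S i).2 (S j).2)
    (hall : ∀ T : Rp k B, Stab e c T.2 → ∃ i, TB10.IsoRep T.2 (S i).2)
    (s : ℕ) (T : Fin s → Type u) [∀ i, AddCommGroup (T i)] [∀ i, Module B (T i)]
    [∀ i, IsSimpleModule B (T i)] (hT : ∀ i j, i ≠ j → IsEmpty (T i ≃ₗ[B] T j))
    (hm : m = 2 ∨ m = 3 ∧ hh0 k B ≤ s)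
    (hinf : ∃ X : ℕ → Rp k B, (∀ i, TB10.BrickRep (X i).2 ∧ Semi e c (X i).2) ∧
      ∀ i j, i ≠ j → ¬ TB10.IsoRep (X i).2 (X j).2) :
    ∃ d, InfBricks k B d := by
  have : Infinite k := IsAlgClosed.instInfinite
  obtain ⟨n, V, hVs, hVn, hVa⟩ := exists_simples k B
  have hinst : ∀ i, IsSimpleModule B (Vm (V i).2) := hVs
  obtain ⟨p, hp⟩ := exists_bas (k := k) (fun i => Vm (V i).2) hVn hVa
  obtain ⟨x, hx1, hx2⟩ := exists_class_of_weights hp e he c
  refine red_class k B p hp x m S (fun i => (hx2 _ _).1 (hS i)) ?_ ?_ ?_ ?_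
  · intro i j hij
    refine ⟨fun f => hne i j hij ((TB10.iso_iff _ _).2 ⟨f⟩)⟩
  · intro Y _ _ _ _ _ hY
    obtain ⟨ρ, ⟨f⟩⟩ := exists_rep (k := k) (A := B) Y
    have hρ : Stab e c ρ := (hx2 _ _).2 (hY.congr f)
    obtain ⟨i, hi⟩ := hall ⟨_, ρ⟩ hρ
    obtain ⟨g⟩ := (TB10.iso_iff _ _).1 hi
    exact ⟨i, ⟨f.trans g⟩⟩
  · rcases hm with h | ⟨h, h'⟩
    · exact Or.inl h
    · refine Or.inr ⟨h, fun hfin => nse_of_hh0 hp hfin (h'.trans ?_)⟩
      have hc := fun i => hVa (T i)
      choose g hg using hc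
      have hinj : Function.Injective g := by
        intro i j hij
        by_contra hcon
        obtain ⟨f1⟩ := hg i
        obtain ⟨f2⟩ := hg j
        rw [hij] at f1
        exact (hT i j hcon).false (f1.trans f2.symm)
      simpa using Fintype.card_le_of_injective g hinj
  · obtain ⟨X, hX, hXn⟩ := hinf
    refine ⟨X, fun i => ⟨(TB10.brick_iff _).1 (hX i).1, (hx1 _ _).1 (hX i).2⟩, ?_⟩
    intro i j hij
    exact ⟨fun f => hXn i j (ne_of_lt hij) ((TB10.iso_iff _ _).2 ⟨f⟩)⟩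

/-- the theorem for a corner of a quotient -/
theorem semistable_corner (k : Type u) [Field k] [IsAlgClosed k] (A A' B : Type u)
    [Ring A] [Algebra k A] [Module.Finite k A] [Ring A'] [Algebra k A'] [Ring B] [Algebra k B]
    (π : A →ₐ[k] A') (hπ : Function.Surjective π)
    (φ : B →ₗ[k] A') (hmul : ∀ x y, φ (x * y) = φ x * φ y)
    (hinj : Function.Injective φ) (hcorner : ∀ a : A', ∃ b : B, φ b = φ 1 * a * φ 1)
    (r : ℕ) (e : Fin r → B) (he : ∀ j, e j * e j = e j) (c : Fin r → ℤ)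
    (m : ℕ) (S : Fin m → Rp k B) (hS : ∀ i, Stab e c (S i).2)
    (hne : ∀ i j, i ≠ j → ¬ TB10.IsoRep (S i).2 (S j).2)
    (hall : ∀ T : Rp k B, Stab e c T.2 → ∃ i, TB10.IsoRep T.2 (S i).2)
    (s : ℕ) (T : Fin s → Type u) [∀ i, AddCommGroup (T i)] [∀ i, Module B (T i)]
    [∀ i, IsSimpleModule B (T i)] (hT : ∀ i j, i ≠ j → IsEmpty (T i ≃ₗ[B] T j))
    (hm : m = 2 ∨ m = 3 ∧ hh0 k B ≤ s)
    (hinf : ∃ X : ℕ → Rp k B, (∀ i, TB10.BrickRep (X i).2 ∧ Semi e c (X i).2) ∧
      ∀ i j, i ≠ j → ¬ TB10.IsoRep (X i).2 (X j).2) :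
    ∃ d, (m = 2 → (∀ j, c j = 0) → d ≤ finrank k A * (2 ^ finrank k B * finrank k B)) ∧
      InfBricks k A d := by
  haveI : Module.Finite k A' := Module.Finite.of_surjective π.toLinearMap hπ
  haveI : Module.Finite k B := Module.Finite.of_injective φ hinj
  by_cases h0 : m = 2 ∧ ∀ j, c j = 0
  · obtain ⟨rfl, hc⟩ := h0
    have h1 := simple_of_stab e c hc (S 0).2 (hS 0)
    have h2 := simple_of_stab e c hc (S 1).2 (hS 1)
    have hall' : ∀ (T : Type u) [AddCommGroup T] [Module B T] [IsSimpleModule B T],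
        Nonempty (T ≃ₗ[B] Vm (S 0).2) ∨ Nonempty (T ≃ₗ[B] Vm (S 1).2) := by
      intro T _ _ _
      obtain ⟨n, V, hVs, hVn, hVa⟩ := exists_simples k B
      obtain ⟨i, ⟨f⟩⟩ := hVa T
      have := hVs i
      obtain ⟨j, hj⟩ := hall (V i) (stab_of_simple e c hc (V i).2)
      obtain ⟨g⟩ := (TB10.iso_iff _ _).1 hj
      fin_cases j
      · exact Or.inl ⟨f.trans g⟩
      · exact Or.inr ⟨f.trans g⟩
    obtain ⟨d, hd, h⟩ := two_simples_corner k A A' B π hπ φ hmul hinj hcorner (Vm (S 0).2) (Vm (S 1).2)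
      ⟨fun f => hne 0 1 (by decide) ((TB10.iso_iff _ _).2 ⟨f⟩)⟩ hall' (by
        obtain ⟨X, hX, hXn⟩ := hinf
        exact infBricksAll_of ⟨X, fun i => (hX i).1, hXn⟩)
    exact ⟨d, fun _ _ => hd, h⟩
  · obtain ⟨d, h⟩ := semistable_one k B r e he c m S hS hne hall s T hT hm hinf
    obtain ⟨d', -, h'⟩ := infBricks_of_corner φ hmul hinj hcorner d h
    exact ⟨d', fun h1 h2 => absurd ⟨h1, h2⟩ h0, infBricks_of_quot π hπ d' h'⟩

end TB4
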