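import Pool.Agent.LibTB4.F1
import Pool.Agent.LibTB10.F2
import Pool.Agent.LibTB10.F3
/-!
The statement for bundled finite-dimensional modules (helper10).
-/
set_option autoImplicit false
universe u
namespace TB4
open Module TB10 TB3

section
variable {k : Type u} [Field k] {A : Type u} [Ring A] [Algebra k A]

def f3_P (e : A) : Submodule A A := LinearMap.range (LinearMap.toSpanSingleton A A e)

theorem f3_mem (e : A) (he : e * e = e) (a : A) : a ∈ f3_P e ↔ a * e = a := by
  unfold f3_P
  constructor
  · rintro ⟨b, rfl⟩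
    simp [LinearMap.toSpanSingleton_apply, mul_assoc, he]
  · intro h
    exact ⟨a, by simpa [LinearMap.toSpanSingleton_apply] using h⟩

theorem f3_proj (e : A) (he : e * e = e) : Module.Projective A (f3_P e) := by
  refine Module.Projective.of_split (f3_P e).subtype
    ((LinearMap.toSpanSingleton A A e).codRestrict (f3_P e) (fun a => ⟨a, rfl⟩)) ?_
  ext x
  have := (f3_mem e he x.1).mp x.2
  simpa [LinearMap.toSpanSingleton_apply] using this

theorem f3_fin (e : A) (he : e * e = e) (X : Type u) [AddCommGroup X] [Module A X]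
    [Module k X] [IsScalarTower k A X] :
    finrank k (f3_P e →ₗ[A] X) = finrank k (LinearMap.range (Algebra.lsmul k k X e)) := by
  have hee : e ∈ f3_P e := (f3_mem e he e).mpr he
  let f : (f3_P e →ₗ[A] X) →ₗ[k] X :=
    { toFun := fun h => h ⟨e, hee⟩
      map_add' := fun _ _ => rfl
      map_smul' := fun _ _ => rfl }
  have hval : ∀ (h : f3_P e →ₗ[A] X) (a : f3_P e), h a = (a : A) • h ⟨e, hee⟩ := by
    intro h a
    rw [← map_smul]
    congr 1
    apply Subtype.ext
    exact ((f3_mem e he a.1).mp a.2).symm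
  have hf : Function.Injective f := by
    intro h h' hh
    ext a
    rw [hval h a, hval h' a]
    exact congrArg _ hh
  have hr : LinearMap.range f = LinearMap.range (Algebra.lsmul k k X e) := by
    apply le_antisymm
    · rintro _ ⟨h, rfl⟩
      refine ⟨h ⟨e, hee⟩, ?_⟩
      change e • h ⟨e, hee⟩ = h ⟨e, hee⟩
      exact (hval h ⟨e, hee⟩).symm
    · rintro _ ⟨x, rfl⟩
      refine ⟨(LinearMap.toSpanSingleton A X x) ∘ₗ (f3_P e).subtype, ?_⟩
      change e • x = e • x
      rfl
  rw [← hr]
  exact (LinearMap.finrank_range_of_inj hf).symm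

theorem f3_br [Module.Finite k A] {n : ℕ} {p : Fin n → Submodule A A} (hp : Bas k p) {r : ℕ}
    (e : Fin r → A) (he : ∀ j, e j * e j = e j) (c : Fin r → ℤ) : ∃ x : Fin n → ℤ,
    ∀ (X : Type u) [AddCommGroup X] [Module A X] [Module k X] [IsScalarTower k A X]
      [Module.Finite k X],
      br k p x X = ∑ j, c j * (finrank k (LinearMap.range (Algebra.lsmul k k X (e j))) : ℤ) := by
  have h : ∀ j, ∃ t : Fin n → ℕ,
      ∀ (X : Type u) [AddCommGroup X] [Module A X] [Module k X] [IsScalarTower k A X]
      [Module.Finite k X], finrank k (f3_P (e j) →ₗ[A] X) = ∑ i, t i * finrank k (p i →ₗ[A] X) := by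
    intro j
    have := f3_proj (e j) (he j)
    exact hp.ty (f3_P (e j))
  choose t ht using h
  refine ⟨fun i => ∑ j, c j * (t j i : ℤ), ?_⟩
  intro X _ _ _ _ _
  have h2 : ∀ j, (finrank k (LinearMap.range (Algebra.lsmul k k X (e j))) : ℤ)
      = ∑ i, (t j i : ℤ) * (finrank k (p i →ₗ[A] X) : ℤ) := by
    intro j
    rw [← f3_fin (e j) (he j) X, ht j X]
    push_cast
    rfl
  unfold br
  simp_rw [h2, Finset.sum_mul, Finset.mul_sum]
  rw [Finset.sum_comm]
  refine Finset.sum_congr rfl fun j _ => Finset.sum_congr rfl fun i _ => ?_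
  ring

/-- `∑ c j * dim e_j U` for a submodule `U` of `X` -/
noncomputable def thM (k : Type u) [Field k] {A : Type u} [Ring A] [Algebra k A] {r : ℕ}
    (e : Fin r → A) (c : Fin r → ℤ) {X : Type u} [AddCommGroup X] [Module k X]
    [Module A X] [IsScalarTower k A X] (U : Submodule A X) : ℤ :=
  ∑ j, c j * (finrank k ((U.restrictScalars k).map (Algebra.lsmul k k X (e j))) : ℤ)

theorem f3_th {r : ℕ} (e : Fin r → A) (c : Fin r → ℤ) {X : Type u} [AddCommGroup X] [Module k X]
    [Module A X] [IsScalarTower k A X] (U : Submodule A X) :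
    thM k e c U = ∑ j, c j * (finrank k (LinearMap.range (Algebra.lsmul k k U (e j))) : ℤ) := by
  unfold thM
  refine Finset.sum_congr rfl fun j _ => ?_
  have h : (LinearMap.range (Algebra.lsmul k k U (e j))).map (U.subtype.restrictScalars k) =
      (U.restrictScalars k).map (Algebra.lsmul k k X (e j)) := by
    apply le_antisymm
    · rintro _ ⟨_, ⟨v, rfl⟩, rfl⟩
      exact ⟨v, v.2, rfl⟩
    · rintro _ ⟨v, hv, rfl⟩
      exact ⟨_, ⟨⟨v, hv⟩, rfl⟩, rfl⟩
  rw [← h]
  rw [(Submodule.equivMapOfInjective (U.subtype.restrictScalars k) Subtype.val_injective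
    (LinearMap.range (Algebra.lsmul k k U (e j)))).finrank_eq]

/-- a class `x` describing the stability condition -/
theorem exists_classM [Module.Finite k A] {n : ℕ} {p : Fin n → Submodule A A} (hp : Bas k p) {r : ℕ}
    (e : Fin r → A) (he : ∀ j, e j * e j = e j) (c : Fin r → ℤ) : ∃ x : Fin n → ℤ,
    ∀ (X : Type u) [AddCommGroup X] [Module A X] [Module k X] [IsScalarTower k A X]
      [Module.Finite k X],
      ((thM k e c (⊤ : Submodule A X) = 0 ∧ ∀ U : Submodule A X, thM k e c U ≤ 0) ↔ Ws k p x X) ∧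
      ((Nontrivial X ∧ thM k e c (⊤ : Submodule A X) = 0 ∧
        ∀ U : Submodule A X, U ≠ ⊥ → U ≠ ⊤ → thM k e c U < 0) ↔ St k p x X) := by
  obtain ⟨x, hx⟩ := f3_br hp e he c
  refine ⟨x, ?_⟩
  intro X _ _ _ _ _
  have hU : ∀ U : Submodule A X, thM k e c U = br k p x U := by
    intro U
    rw [f3_th, hx U]
  have hT : br k p x (⊤ : Submodule A X) = br k p x X := br_congr x Submodule.topEquiv
  constructor
  · constructor
    · rintro ⟨h1, h2⟩
      have h3 : H0c k p x X := fun K => by
        rw [← hU]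
        exact h2 K
      refine Ws_of_H0c hp h3 ?_
      rw [← hT, ← hU, h1]
    · intro h
      refine ⟨?_, fun U => ?_⟩
      · rw [hU, hT]
        exact Ws_br h
      · rw [hU]
        exact h.2 U
  · constructor
    · rintro ⟨h1, h2, h3⟩
      refine ⟨h1, ?_, fun K h4 h5 => ?_⟩
      · rw [← hT, ← hU, h2]
      · rw [← hU]
        exact h3 K h4 h5
    · intro h
      refine ⟨h.nt, ?_, fun U h4 h5 => ?_⟩
      · rw [hU, hT]
        exact h.zero
      · rw [hU]
        exact h.neg U h4 h5

end

end TB4
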