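import Pool.Agent.LibTB4.Defs
import Pool.Agent.LibTB3.N2
import Pool.Agent.LibTB10.T1
/-!
ROW [TB4 W2] MEDIUM.
(cite N2, TB10.T1) Hom(P,.) is fully faithful on W_x.
PLAN. surj_pow: choose a k-basis π_i of Hom(P,X) (Module.finBasis); π : (Fin b → P) → X, π v = ∑ π_i (v i), surjective because tr A P X = ⊤ and every θ is a k-combination of the π_i.
K = ker π is semistable (Ws_ker; (Fin b → P) is semistable: Ws_pow by induction on b), so generated by P.  h̃ : (Fin b → P) → Y, h̃ v = ∑ g(π_i) (v i).  For κ : P → K: κ_i = component i of subtype ∘ κ;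
∑ g(π_i) κ_i = g(∑ π_i κ_i) = g(0) = 0 (g is linear over Ce A P: g(op κ_i • π_i) = op κ_i • g(π_i), HomP.smul_def), so h̃ vanishes on K = tr A P K; h : X → Y with h π = h̃, so h ∘ π_i = g π_i, and for general φ = ∑ c_i π_i: g is
k-linear (c • φ = (algebraMap c) • φ, IsScalarTower), so g φ = h ∘ φ.
faithful: h ∘ φ = 0 for all φ implies h = 0 on tr A P X = ⊤.
hom_ne: X nontrivial in W_x has a nonzero φ : P → X (TB10.exists_hom_of_gen).
-/
set_option autoImplicit false
universe u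
namespace TB4
open Module TB10 TB3

section
variable {k : Type u} [Field k] {A : Type u} [Ring A] [Algebra k A]
variable {n : ℕ} {p : Fin n → Submodule A A}
    [Module.Finite k A]
    {P : Type u} [AddCommGroup P] [Module A P] [Module k P] [IsScalarTower k A P] [Module.Finite k P]
    {X : Type u} [AddCommGroup X] [Module A X] [Module k X] [IsScalarTower k A X] [Module.Finite k X]
    {Y : Type u} [AddCommGroup Y] [Module A Y] [Module k Y] [IsScalarTower k A Y] [Module.Finite k Y]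

theorem w2_prod_ws (hp : Bas k p) {x : Fin n → ℤ} (h : Ws k p x X) (h' : Ws k p x Y) :
    Ws k p x (X × Y) := by
  have e1 : X ≃ₗ[A] LinearMap.ker (LinearMap.snd A X Y) :=
    (LinearEquiv.ofInjective (LinearMap.inl A X Y) LinearMap.inl_injective).trans
      (LinearEquiv.ofEq _ _ (LinearMap.range_inl A X Y))
  have e2 : Y ≃ₗ[A] ((X × Y) ⧸ LinearMap.ker (LinearMap.snd A X Y)) :=
    (LinearMap.quotKerEquivOfSurjective (LinearMap.snd A X Y) LinearMap.snd_surjective).symm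
  exact Ws_ext hp (LinearMap.ker (LinearMap.snd A X Y)) (Ws_congr e1 h) (Ws_congr e2 h')

theorem w2_factor {M : Type u} [AddCommGroup M] [Module A M] (θ : M →ₗ[A] X)
    (hs : Function.Surjective θ) (θ' : M →ₗ[A] Y)
    (hk : LinearMap.ker θ ≤ LinearMap.ker θ') : ∃ γ : X →ₗ[A] Y, ∀ m, γ (θ m) = θ' m := by
  refine ⟨((LinearMap.ker θ).liftQ θ' hk) ∘ₗ
    (LinearMap.quotKerEquivOfSurjective θ hs).symm.toLinearMap, ?_⟩
  intro m
  have h1 : (LinearMap.quotKerEquivOfSurjective θ hs).symm (θ m) = Submodule.Quotient.mk m := by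
    rw [LinearEquiv.symm_apply_eq]
    rfl
  rw [LinearMap.comp_apply, LinearEquiv.coe_coe, h1, Submodule.liftQ_apply]

theorem Ws_pow (hp : Bas k p) {x : Fin n → ℤ} (hX : Ws k p x X) (b : ℕ) : Ws k p x (Fin b → X) := by
  induction b with
  | zero =>
    refine ⟨E0c_subsingleton x, ?_⟩
    intro K
    have : Subsingleton K := ⟨fun a b => Subtype.ext (Subsingleton.elim _ _)⟩
    rw [br_subsingleton]
  | succ b ih =>
    have e : (X × (Fin b → X)) ≃ₗ[A] (Fin (b + 1) → X) := Fin.consLinearEquiv A fun _ => X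
    exact Ws_congr e (w2_prod_ws hp hX ih)

/-- composition with `h : X → Y` as a `Ce A P`-linear map -/
def mapH (h : X →ₗ[A] Y) : HomP A P X →ₗ[Ce A P] HomP A P Y where
  toFun φ := (h ∘ₗ (show P →ₗ[A] X from φ) : P →ₗ[A] Y)
  map_add' φ ψ := LinearMap.comp_add _ _ _
  map_smul' _ _ := rfl

/-- evaluation at `q` -/
def w2_ev (q : P) : HomP A P X →ₗ[k] X where
  toFun φ := (show P →ₗ[A] X from φ) q
  map_add' _ _ := rfl
  map_smul' _ _ := rfl

omit [Module.Finite k A] [Module.Finite k P] [Module.Finite k X] in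
theorem w2_ext {φ ψ : HomP A P X} (h : ∀ q : P, w2_ev (k := k) q φ = w2_ev (k := k) q ψ) : φ = ψ :=
  LinearMap.ext (f := (show P →ₗ[A] X from φ)) (g := (show P →ₗ[A] X from ψ)) h

omit [Module.Finite k A] [Module.Finite k P] [Module.Finite k X] in
theorem w2_ev_smul (q : P) (c : Ce A P) (φ : HomP A P X) :
    w2_ev (k := k) q (c • φ) = w2_ev (k := k) ((c.unop : Module.End A P) q) φ := rfl

omit [Module.Finite k A] [Module.Finite k P] [Module.Finite k X] [Module.Finite k Y] in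
theorem w2_ev_map (q : P) (h : X →ₗ[A] Y) (φ : HomP A P X) :
    w2_ev (k := k) q (mapH h φ) = h (w2_ev (k := k) q φ) := rfl

theorem full (hp : Bas k p) {x : Fin n → ℤ} (hP : Prg k p x P) (hX : Ws k p x X) (hY : Ws k p x Y)
    (g : HomP A P X →ₗ[Ce A P] HomP A P Y) : ∃ h : X →ₗ[A] Y, g = mapH h := by
  obtain ⟨b, ⟨B⟩⟩ : ∃ b : ℕ, Nonempty (Module.Basis (Fin b) k (HomP A P X)) :=
    ⟨_, ⟨Module.finBasis k (HomP A P X)⟩⟩
  obtain ⟨β, hβ⟩ : ∃ β : Fin b → (P →ₗ[A] X), ∀ i, (show HomP A P X from β i) = B i :=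
    ⟨fun i => B i, fun _ => rfl⟩
  obtain ⟨G, hG⟩ : ∃ G : Fin b → (P →ₗ[A] Y), ∀ i, (show HomP A P Y from G i) = g (B i) :=
    ⟨fun i => g (B i), fun _ => rfl⟩
  have hβe : ∀ i q, β i q = w2_ev (k := k) q (B i) := by
    intro i q
    rw [← hβ i]
    rfl
  have hGe : ∀ i q, G i q = w2_ev (k := k) q (g (B i)) := by
    intro i q
    rw [← hG i]
    rfl
  obtain ⟨π, hπ⟩ : ∃ π : (Fin b → P) →ₗ[A] X, π = ∑ i, (β i) ∘ₗ LinearMap.proj i := ⟨_, rfl⟩
  have hπa : ∀ v, π v = ∑ i, β i (v i) := by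
    intro v
    rw [hπ, LinearMap.sum_apply]
    rfl
  obtain ⟨ht, hht⟩ : ∃ ht : (Fin b → P) →ₗ[A] Y, ht = ∑ i, (G i) ∘ₗ LinearMap.proj i := ⟨_, rfl⟩
  have hta : ∀ v, ht v = ∑ i, G i (v i) := by
    intro v
    rw [hht, LinearMap.sum_apply]
    rfl
  have hrep : ∀ (φ : HomP A P X) (q : P), w2_ev (k := k) q φ = ∑ i, B.repr φ i • β i q := by
    intro φ q
    conv_lhs => rw [← B.sum_repr φ]
    rw [map_sum]
    refine Finset.sum_congr rfl fun i _ => ?_
    rw [map_smul, hβe]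
  have hsurj : Function.Surjective π := by
    rw [← LinearMap.range_eq_top, eq_top_iff, ← (hP.gen X hX : tr A P X = ⊤)]
    refine iSup_le fun θ => ?_
    rintro _ ⟨q, rfl⟩
    refine ⟨fun i => B.repr (show HomP A P X from θ) i • q, ?_⟩
    rw [hπa]
    refine Eq.trans ?_ (hrep (show HomP A P X from θ) q).symm
    refine Finset.sum_congr rfl fun i _ => ?_
    exact (β i).map_smul_of_tower _ _
  have hK : Ws k p x (LinearMap.ker π) := Ws_ker hp π (Ws_pow hp hP.ws b) hX
  have hKer : LinearMap.ker π ≤ LinearMap.ker ht := by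
    have h1 : (⊤ : Submodule A (LinearMap.ker π)) ≤
        LinearMap.ker (ht ∘ₗ (LinearMap.ker π).subtype) := by
      rw [← (hP.gen _ hK : tr A P (LinearMap.ker π) = ⊤)]
      refine iSup_le fun κ => ?_
      rintro _ ⟨q, rfl⟩
      rw [LinearMap.mem_ker, LinearMap.comp_apply, hta]
      obtain ⟨K, hKd⟩ : ∃ K : Fin b → Module.End A P,
          ∀ i q, K i q = ((κ q : LinearMap.ker π) : Fin b → P) i :=
        ⟨fun i => (LinearMap.proj i ∘ₗ (LinearMap.ker π).subtype ∘ₗ κ : P →ₗ[A] P), fun _ _ => rfl⟩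
      have h2 : (∑ i, (MulOpposite.op (K i) : Ce A P) • B i) = (0 : HomP A P X) := by
        refine w2_ext (k := k) fun q => ?_
        rw [map_sum, map_zero]
        have h4 : π ((κ q : LinearMap.ker π) : Fin b → P) = 0 := (κ q).2
        rw [hπa] at h4
        rw [← h4]
        refine Finset.sum_congr rfl fun i _ => ?_
        rw [w2_ev_smul, MulOpposite.unop_op, hKd, hβe]
      have h5 := congrArg g h2
      rw [map_sum, map_zero] at h5
      have h7 := congrArg (w2_ev (k := k) q) h5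
      rw [map_sum, map_zero] at h7
      rw [← h7]
      refine Finset.sum_congr rfl fun i _ => ?_
      rw [map_smul, w2_ev_smul, MulOpposite.unop_op, hKd, hGe]
      rfl
    intro v hv
    exact h1 (Submodule.mem_top : (⟨v, hv⟩ : LinearMap.ker π) ∈ ⊤)
  obtain ⟨h, hh⟩ := w2_factor π hsurj ht hKer
  refine ⟨h, ?_⟩
  have hB : ∀ i q, h (β i q) = G i q := by
    intro i q
    have h1 := hh (Pi.single i q)
    rw [hπa, hta] at h1
    have h2 : ∑ j, β j ((Pi.single i q : Fin b → P) j) = β i q := by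
      rw [Finset.sum_eq_single i]
      · rw [Pi.single_eq_same]
      · intro j _ hj
        rw [Pi.single_eq_of_ne hj, map_zero]
      · intro hi
        exact absurd (Finset.mem_univ i) hi
    have h3 : ∑ j, G j ((Pi.single i q : Fin b → P) j) = G i q := by
      rw [Finset.sum_eq_single i]
      · rw [Pi.single_eq_same]
      · intro j _ hj
        rw [Pi.single_eq_of_ne hj, map_zero]
      · intro hi
        exact absurd (Finset.mem_univ i) hi
    rw [h2, h3] at h1
    exact h1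
  refine LinearMap.ext fun φ => ?_
  refine w2_ext (k := k) fun q => ?_
  have e2 : g φ = ∑ i, B.repr φ i • g (B i) := by
    conv_lhs => rw [← B.sum_repr φ]
    rw [map_sum]
    refine Finset.sum_congr rfl fun i _ => ?_
    rw [g.map_smul_of_tower]
  rw [w2_ev_map, hrep, e2, map_sum, map_sum]
  refine Finset.sum_congr rfl fun i _ => ?_
  rw [map_smul, h.map_smul_of_tower, hB, hGe]

theorem faithful {x : Fin n → ℤ} (hP : Prg k p x P) (hX : Ws k p x X) (h : X →ₗ[A] Y)
    (h0 : (mapH h : HomP A P X →ₗ[Ce A P] HomP A P Y) = 0) : h = 0 := by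
  have h1 : (⊤ : Submodule A X) ≤ LinearMap.ker h := by
    rw [← (hP.gen X hX : tr A P X = ⊤)]
    refine iSup_le fun θ => ?_
    rintro _ ⟨q, rfl⟩
    have h2 := LinearMap.congr_fun h0 (show HomP A P X from θ)
    have h3 : (h ∘ₗ θ : P →ₗ[A] Y) = 0 := h2
    exact LinearMap.congr_fun h3 q
  refine LinearMap.ext fun v => ?_
  exact h1 (Submodule.mem_top : v ∈ ⊤)

theorem hom_nontrivial {x : Fin n → ℤ} (hP : Prg k p x P) (hX : Ws k p x X) [Nontrivial X] :
    Nontrivial (HomP A P X) := by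
  obtain ⟨θ, hθ⟩ := exists_hom_of_gen (hP.gen X hX)
  exact ⟨⟨(show HomP A P X from θ), 0, hθ⟩⟩

theorem iso_of_iso (hp : Bas k p) {x : Fin n → ℤ} (hP : Prg k p x P) (hX : Ws k p x X)
    (hY : Ws k p x Y) (h : Nonempty (HomP A P X ≃ₗ[Ce A P] HomP A P Y)) : Nonempty (X ≃ₗ[A] Y) := by
  obtain ⟨e⟩ := h
  obtain ⟨f, hf⟩ := full hp hP hX hY e.toLinearMap
  obtain ⟨f', hf'⟩ := full hp hP hY hX e.symm.toLinearMap
  have h1 : f' ∘ₗ f - LinearMap.id = 0 := by
    refine faithful hP hX _ ?_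
    refine LinearMap.ext fun φ => ?_
    have e1 : e φ = ((f ∘ₗ (show P →ₗ[A] X from φ) : P →ₗ[A] Y) : HomP A P Y) :=
      LinearMap.congr_fun hf φ
    have e2 : e.symm (e φ) = ((f' ∘ₗ (show P →ₗ[A] Y from e φ) : P →ₗ[A] X) : HomP A P X) :=
      LinearMap.congr_fun hf' (e φ)
    rw [e.symm_apply_apply, e1] at e2
    change ((f' ∘ₗ f - LinearMap.id) ∘ₗ (show P →ₗ[A] X from φ) : P →ₗ[A] X) = 0
    rw [LinearMap.sub_comp, LinearMap.id_comp, LinearMap.comp_assoc, sub_eq_zero]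
    exact e2.symm
  have h2 : f ∘ₗ f' - LinearMap.id = 0 := by
    refine faithful hP hY _ ?_
    refine LinearMap.ext fun φ => ?_
    have e1 : e.symm φ = ((f' ∘ₗ (show P →ₗ[A] Y from φ) : P →ₗ[A] X) : HomP A P X) :=
      LinearMap.congr_fun hf' φ
    have e2 : e (e.symm φ) = ((f ∘ₗ (show P →ₗ[A] X from e.symm φ) : P →ₗ[A] Y) : HomP A P Y) :=
      LinearMap.congr_fun hf (e.symm φ)
    rw [e.apply_symm_apply, e1] at e2
    change ((f ∘ₗ f' - LinearMap.id) ∘ₗ (show P →ₗ[A] Y from φ) : P →ₗ[A] Y) = 0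
    rw [LinearMap.sub_comp, LinearMap.id_comp, LinearMap.comp_assoc, sub_eq_zero]
    exact e2.symm
  exact ⟨LinearEquiv.ofLinear f f' (sub_eq_zero.1 h2) (sub_eq_zero.1 h1)⟩

end

end TB4
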