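import Pool.Agent.LibTB4.Defs
import Pool.Agent.LibTB3.L3
import Pool.Agent.LibTB3.N4
import Pool.Agent.LibTB4.W2
/-!
ROW [TB4 W1] MEDIUM.
(cite LibTB3 N1-N4, L1, L3, R1) existence of a projective generator of W_x.  V i (i < m) are all stable modules up to isomorphism.
PLAN. For each i: dual class y i of V i (exists_dual), F i rigid (local) of class y i (Prm), M i = (F i).M, E0c x (M i) (Tc_M and Dl.cmp), every V in W_x has E0c (y i) V (Dl.ws) so
E0 (F i).f V.  Choose K i ≤ M i with Ws x (M i ⧸ K i) (K = ⊤ is one: 0 is semistable) and finrank k (M i ⧸ K i) maximal (bounded by finrank (M i)).  P i = M i ⧸ K i.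
Claim: every θ : M i → X, X in W_x, vanishes on K i: the range of (mkQ, θ) : M i → (M i ⧸ K i) × X is semistable (Ws_range; the product is semistable, Ws_ext) and is ≃ M i ⧸ (K i ⊓ ker θ), so by
maximality K i ⊓ ker θ = K i.
P = (i : Fin m) → P i (semistable: induction or Ws of a finite product; e.g. use Fin induction / or build P by recursion on m as a product).  Module.Finite etc. by instances.
gen: X in W_x, N = tr A P X is semistable (a quotient of a power of P, TB10.exists_surj_of_gen and gen_tr, Ws_range applied to the map (Fin r → P) → X), X ⧸ N is semistable (Ws_coker/Ws_sub).  If it is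
not 0 it has a stable quotient (exists_stable_quot), ≃ V i; finrank Hom(M i, V i) = br (y i) (V i) = 1 so a nonzero M i → V i exists, it lifts to M i → X (lift_hom: kernel of X → V i is
semistable so E0c (y i)), factors through P i, and extends by 0 to P → X, whose range is in N: contradiction.
proj: components θ i : P i → Y; θ i ∘ mkQ : M i → Y lifts to M i → X (lift_hom, ker f is semistable), which vanishes on K i.
finrank bound: not needed.
-/
set_option autoImplicit false
universe u
namespace TB4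
open Module TB10 TB3

section
variable {k : Type u} [Field k] {A : Type u} [Ring A] [Algebra k A]
variable {n : ℕ} {p : Fin n → Submodule A A}
    [Module.Finite k A] [Infinite k] [IsAlgClosed k]

/-- the lifting property of a module with respect to the surjections in `W_x` -/
def w1_L (k : Type u) [Field k] {A : Type u} [Ring A] [Algebra k A] {n : ℕ}
    (p : Fin n → Submodule A A) (x : Fin n → ℤ) (P : Type u) [AddCommGroup P] [Module A P] : Prop :=
  ∀ (X Y : Type u) [AddCommGroup X] [Module A X] [Module k X] [IsScalarTower k A X]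
    [Module.Finite k X] [AddCommGroup Y] [Module A Y] [Module k Y] [IsScalarTower k A Y]
    [Module.Finite k Y] (f : X →ₗ[A] Y), Function.Surjective f → Ws k p x X → Ws k p x Y →
    ∀ θ : P →ₗ[A] Y, ∃ θ' : P →ₗ[A] X, f ∘ₗ θ' = θ

section
variable {X : Type u} [AddCommGroup X] [Module A X] [Module k X] [IsScalarTower k A X]
    [Module.Finite k X]
    {Y : Type u} [AddCommGroup Y] [Module A Y] [Module k Y] [IsScalarTower k A Y] [Module.Finite k Y]

omit [Infinite k] [IsAlgClosed k] in
theorem w1_prod (hp : Bas k p) {x : Fin n → ℤ} (hX : Ws k p x X) (hY : Ws k p x Y) :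
    Ws k p x (X × Y) := by
  refine Ws_ext hp (LinearMap.range (LinearMap.inl A X Y)) ?_ ?_
  · exact Ws_congr (LinearEquiv.ofInjective _ LinearMap.inl_injective) hX
  · rw [LinearMap.range_inl]
    exact Ws_congr (LinearMap.quotKerEquivOfSurjective (LinearMap.snd A X Y)
      LinearMap.snd_surjective).symm hY

omit [Infinite k] [IsAlgClosed k] in
/-- the largest quotient in `W_x` -/
theorem w1_max (hp : Bas k p) {x : Fin n → ℤ} (M : Type u) [AddCommGroup M] [Module A M]
    [Module k M] [IsScalarTower k A M] [Module.Finite k M] (hM : E0c k p x M) :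
    ∃ K : Submodule A M, Ws k p x (M ⧸ K) ∧ ∀ (X : Type u) [AddCommGroup X] [Module A X]
      [Module k X] [IsScalarTower k A X] [Module.Finite k X], Ws k p x X → ∀ θ : M →ₗ[A] X,
      K ≤ LinearMap.ker θ := by
  classical
  have hW0 : Ws k p x (M ⧸ (⊤ : Submodule A M)) := by
    haveI : Subsingleton (M ⧸ (⊤ : Submodule A M)) := Submodule.Quotient.subsingleton_iff.2 rfl
    exact Ws_of_E0c hp (E0c_subsingleton x) (by rw [br_subsingleton])
  have hne : ∃ d : ℕ, ∃ K : Submodule A M, Ws k p x (M ⧸ K) ∧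
      finrank k M - finrank k (M ⧸ K) = d := ⟨_, ⊤, hW0, rfl⟩
  obtain ⟨K, hK, hKd⟩ := Nat.find_spec hne
  refine ⟨K, hK, ?_⟩
  intro X _ _ _ _ _ hX θ
  let f : M →ₗ[A] (M ⧸ K) × X := K.mkQ.prod θ
  have h1 : Ws k p x (LinearMap.range f) := Ws_range hp f hM (w1_prod hp hK hX).2
  have h2 : Ws k p x (M ⧸ LinearMap.ker f) := Ws_congr f.quotKerEquivRange.symm h1
  have hmin := Nat.find_min' hne ⟨LinearMap.ker f, h2, rfl⟩
  rw [← hKd] at hmin
  have hq : ∀ N : Submodule A M, finrank k (M ⧸ N) + finrank k (N.restrictScalars k) =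
      finrank k M := by
    intro N
    have h3 := LinearMap.finrank_range_add_finrank_ker (N.mkQ.restrictScalars k)
    rw [LinearMap.range_eq_top.2 (show Function.Surjective (N.mkQ.restrictScalars k) from
      N.mkQ_surjective), finrank_top] at h3
    have h4 : LinearMap.ker (N.mkQ.restrictScalars k) = N.restrictScalars k := by
      ext v
      exact Submodule.Quotient.mk_eq_zero N
    rw [h4] at h3
    exact h3
  have h5 := hq K
  have h6 := hq (LinearMap.ker f)
  have hle : LinearMap.ker f ≤ K := by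
    intro v hv
    exact (Submodule.Quotient.mk_eq_zero K).1 (congrArg Prod.fst (show f v = 0 from hv))
  have h7 : finrank k (K.restrictScalars k) ≤ finrank k ((LinearMap.ker f).restrictScalars k) := by
    omega
  have h8 : (LinearMap.ker f).restrictScalars k = K.restrictScalars k :=
    Submodule.eq_of_le_of_finrank_le hle h7
  intro v hv
  have h9 : v ∈ (LinearMap.ker f).restrictScalars k := by
    rw [h8]
    exact hv
  exact congrArg Prod.snd (show f v = 0 from h9)

/-- a module of `W_x` with the lifting property and a nonzero map to the stable module `S` -/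
theorem w1_one (hp : Bas k p) (hfin : FinB k A) {x : Fin n → ℤ} (hS : St k p x X) :
    ∃ (P : Type u) (_ : AddCommGroup P) (_ : Module A P) (_ : Module k P) (_ : IsScalarTower k A P)
      (_ : Module.Finite k P), Ws k p x P ∧ w1_L k p x P ∧ ∃ φ : P →ₗ[A] X, φ ≠ 0 := by
  obtain ⟨y, hd⟩ := exists_dual hp hfin hS
  obtain ⟨-, F, hF, -, hy⟩ := hd.prm
  have hM : E0c k p x F.M := hd.cmp.2 F.M (Tc_M hF hy)
  obtain ⟨K, hK, hv⟩ := w1_max hp F.M hM
  refine ⟨F.M ⧸ K, inferInstance, inferInstance, inferInstance, inferInstance, inferInstance, hK,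
    ?_, ?_⟩
  · intro Y Z _ _ _ _ _ _ _ _ _ _ f hf hY hZ θ
    have h1 : E0 F.f (LinearMap.ker f) := (E0_iff hF hy).2 (hd.ws _ (Ws_ker hp f hY hZ))
    obtain ⟨θ', hθ'⟩ := lift_hom F f hf h1 (θ ∘ₗ K.mkQ)
    refine ⟨K.liftQ θ' (hv Y hY θ'), ?_⟩
    apply LinearMap.ext
    intro z
    obtain ⟨v, rfl⟩ := K.mkQ_surjective z
    exact LinearMap.congr_fun hθ' v
  · have h2 := finrank_hom hy ((E0_iff hF hy).2 (hd.ws X (hS.ws hp)))
    rw [hd.one] at h2
    have h3 : 0 < finrank k (F.M →ₗ[A] X) := by omega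
    haveI : Nontrivial (F.M →ₗ[A] X) := Module.finrank_pos_iff.1 h3
    obtain ⟨θ, hθ⟩ := exists_ne (0 : F.M →ₗ[A] X)
    refine ⟨K.liftQ θ (hv X (hS.ws hp) θ), ?_⟩
    intro h0
    apply hθ
    apply LinearMap.ext
    intro v
    exact LinearMap.congr_fun h0 (K.mkQ v)

end

/-- a module of `W_x` with the lifting property and nonzero maps to the first `r` stable modules -/
theorem w1_all (hp : Bas k p) (hfin : FinB k A) (x : Fin n → ℤ) {m : ℕ} (V : Fin m → Rp k A)
    (hV : ∀ i, St k p x (Vm (V i).2)) (r : ℕ) :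
    ∃ (P : Type u) (_ : AddCommGroup P) (_ : Module A P) (_ : Module k P) (_ : IsScalarTower k A P)
      (_ : Module.Finite k P), Ws k p x P ∧ w1_L k p x P ∧
      ∀ i : Fin m, (i : ℕ) < r → ∃ φ : P →ₗ[A] Vm (V i).2, φ ≠ 0 := by
  induction r with
  | zero =>
    refine ⟨PUnit, inferInstance, inferInstance, inferInstance, inferInstance, inferInstance,
      Ws_of_E0c hp (E0c_subsingleton x) (by rw [br_subsingleton]), ?_,
      fun i hi => absurd hi (Nat.not_lt_zero _)⟩
    intro Y Z _ _ _ _ _ _ _ _ _ _ f hf hY hZ θ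
    refine ⟨0, ?_⟩
    apply LinearMap.ext
    intro z
    have hz : z = 0 := Subsingleton.elim _ _
    rw [hz, map_zero, map_zero]
  | succ r ih =>
    obtain ⟨P, i1, i2, i3, i4, i5, hP, hL, hφ⟩ := ih
    by_cases hr : r < m
    · obtain ⟨Q, j1, j2, j3, j4, j5, hQ, hLQ, φ, hφ0⟩ := w1_one hp hfin (hV ⟨r, hr⟩)
      refine ⟨P × Q, inferInstance, inferInstance, inferInstance, inferInstance, inferInstance,
        w1_prod hp hP hQ, ?_, ?_⟩
      · intro Y Z _ _ _ _ _ _ _ _ _ _ f hf hY hZ θ
        obtain ⟨θ1, h1⟩ := hL Y Z f hf hY hZ (θ ∘ₗ LinearMap.inl A P Q)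
        obtain ⟨θ2, h2⟩ := hLQ Y Z f hf hY hZ (θ ∘ₗ LinearMap.inr A P Q)
        refine ⟨θ1.coprod θ2, ?_⟩
        rw [LinearMap.comp_coprod, h1, h2]
        exact LinearMap.coprod_comp_inl_inr θ
      · intro i hi
        rcases Nat.lt_succ_iff_lt_or_eq.1 hi with h | h
        · obtain ⟨ψ, hψ⟩ := hφ i h
          refine ⟨ψ ∘ₗ LinearMap.fst A P Q, fun h0 => hψ ?_⟩
          apply LinearMap.ext
          intro v
          exact LinearMap.congr_fun h0 (v, 0)
        · have hi' : i = ⟨r, hr⟩ := Fin.ext h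
          subst hi'
          refine ⟨φ ∘ₗ LinearMap.snd A P Q, fun h0 => hφ0 ?_⟩
          apply LinearMap.ext
          intro v
          exact LinearMap.congr_fun h0 (0, v)
    · exact ⟨P, i1, i2, i3, i4, i5, hP, hL, fun i _ => hφ i (lt_of_lt_of_le i.2 (not_lt.1 hr))⟩

theorem exists_prg (hp : Bas k p) (hfin : FinB k A) (x : Fin n → ℤ) {m : ℕ} (V : Fin m → Rp k A)
    (hV : ∀ i, St k p x (Vm (V i).2))
    (hall : ∀ (S : Type u) [AddCommGroup S] [Module A S] [Module k S] [IsScalarTower k A S]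
      [Module.Finite k S], St k p x S → ∃ i, Nonempty (S ≃ₗ[A] Vm (V i).2)) :
    ∃ (P : Type u) (_ : AddCommGroup P) (_ : Module A P) (_ : Module k P) (_ : IsScalarTower k A P)
      (_ : Module.Finite k P), Prg k p x P := by
  obtain ⟨P, i1, i2, i3, i4, i5, hP, hL, hφ⟩ := w1_all hp hfin x V hV m
  refine ⟨P, i1, i2, i3, i4, i5, ⟨hP, ?_, hL⟩⟩
  intro X _ _ _ _ _ hX
  obtain ⟨r, π, hπ⟩ := exists_surj_of_gen (k := k) (gen_tr (A := A) (M := P) (X := X))
  have hr : LinearMap.range ((tr A P X).subtype ∘ₗ π) = tr A P X := by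
    rw [LinearMap.range_comp, LinearMap.range_eq_top.2 hπ, Submodule.map_top,
      Submodule.range_subtype]
  have hN : Ws k p x (tr A P X) := by
    have h1 := Ws_range hp ((tr A P X).subtype ∘ₗ π) (Ws_pow hp hP r).1 hX.2
    rw [hr] at h1
    exact h1
  have hQ := (Ws_sub hp hX (tr A P X) (Ws_br hN)).2
  by_contra hne
  haveI : Nontrivial (X ⧸ tr A P X) := Submodule.Quotient.nontrivial_iff.2 hne
  obtain ⟨K, hK⟩ := exists_stable_quot hp hQ
  obtain ⟨i, ⟨e⟩⟩ := hall ((X ⧸ tr A P X) ⧸ K) hK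
  obtain ⟨φ, hφ0⟩ := hφ i i.2
  have hsurj : Function.Surjective (K.mkQ ∘ₗ (tr A P X).mkQ) :=
    K.mkQ_surjective.comp (tr A P X).mkQ_surjective
  obtain ⟨φ', hφ'⟩ := hL X ((X ⧸ tr A P X) ⧸ K) (K.mkQ ∘ₗ (tr A P X).mkQ) hsurj hX (hK.ws hp)
    (e.symm.toLinearMap ∘ₗ φ)
  apply hφ0
  apply LinearMap.ext
  intro v
  have h2 : (tr A P X).mkQ (φ' v) = 0 :=
    (Submodule.Quotient.mk_eq_zero _).2 (range_le_tr φ' ⟨v, rfl⟩)
  have h3 := LinearMap.congr_fun hφ' v
  rw [LinearMap.comp_apply, LinearMap.comp_apply, h2, map_zero] at h3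
  have h4 : e.symm (φ v) = 0 := h3.symm
  rw [LinearMap.zero_apply]
  exact (LinearEquiv.map_eq_zero_iff e.symm).1 h4

end

end TB4
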