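import Pool.Agent.LibTB4.Defs
import Pool.Agent.LibTB3.N2
import Pool.Agent.LibTB4.W2
/-!
ROW [TB4 W3] MEDIUM.
(cite N2, W2) Hom(P,.) is essentially surjective.  C = Ce A P.
PLAN. N f.d.: generators n_1, ..., n_b (a k-basis, b = finrank k N) give C^b → N surjective, kernel R (f.d.), generators of R give C^a → C^b with range R.  Matrix (c_ij) with entries in C = (End P)^op:
u : (Fin a → P) → (Fin b → P) with u(v)_j = ∑_i (unop c_ij) (v i).  X = (Fin b → P) ⧸ range u is semistable (Ws_coker, Ws_pow), finrank X ≤ b * finrank P.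
Isomorphism Hom(P,X) ≃ N: Φ : (Fin b → C) → HomP A P X, (c_j) ↦ mkQ ∘ (v ↦ (unop c_j v)_j), C-linear, surjective (Prg.proj for mkQ : (Fin b → P) → X), kernel = those (c_j) for which the map P → (Fin b → P) lands
in range u; lift it through (Fin a → P) → range u (Prg.proj; range u semistable), which says (c_j) is in the range of C^a → C^b, i.e. in R.  So HomP A P X ≃ C^b / R ≃ N
(`Submodule.quotEquivOfEq`, `LinearMap.quotKerEquivOfSurjective` twice).
-/
set_option autoImplicit false
universe u
namespace TB4
open Module TB10 TB3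

section
variable {k : Type u} [Field k] {A : Type u} [Ring A] [Algebra k A]
variable {n : ℕ} {p : Fin n → Submodule A A}
    [Module.Finite k A]
    {P : Type u} [AddCommGroup P] [Module A P] [Module k P] [IsScalarTower k A P] [Module.Finite k P]

/-- the map `P^a → P^b` given by a matrix with entries in `C` -/
def w3_u (A : Type u) [Ring A] (P : Type u) [AddCommGroup P] [Module A P] {a b : ℕ}
    (m : Fin a → Fin b → Ce A P) : (Fin a → P) →ₗ[A] (Fin b → P) :=
  LinearMap.pi fun j => ∑ i, ((m i j).unop : P →ₗ[A] P) ∘ₗ LinearMap.proj i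

omit [Field k] [Algebra k A] [Module.Finite k A] [Module k P] [IsScalarTower k A P]
  [Module.Finite k P] in
theorem w3_u_apply {a b : ℕ} (m : Fin a → Fin b → Ce A P) (v : Fin a → P) (j : Fin b) :
    w3_u A P m v j = ∑ i, ((m i j).unop : P →ₗ[A] P) (v i) := by
  simp [w3_u, LinearMap.sum_apply]

/-- the map `P → P^b` given by a vector with entries in `C` -/
def w3_v (A : Type u) [Ring A] (P : Type u) [AddCommGroup P] [Module A P] {b : ℕ}
    (c : Fin b → Ce A P) : P →ₗ[A] (Fin b → P) :=
  LinearMap.pi fun j => ((c j).unop : P →ₗ[A] P)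

/-- `C^b → Hom(P, P^b / U)` -/
def w3_Phi (A : Type u) [Ring A] (P : Type u) [AddCommGroup P] [Module A P] {b : ℕ}
    (U : Submodule A (Fin b → P)) :
    (Fin b → Ce A P) →ₗ[Ce A P] HomP A P ((Fin b → P) ⧸ U) where
  toFun c := (U.mkQ ∘ₗ w3_v A P c : P →ₗ[A] ((Fin b → P) ⧸ U))
  map_add' c d := by
    exact LinearMap.comp_add (w3_v A P c) (w3_v A P d) U.mkQ
  map_smul' c d := rfl

omit [Field k] [Algebra k A] [Module.Finite k A] [Module k P] [IsScalarTower k A P]
  [Module.Finite k P] in
theorem w3_v_comp {a b : ℕ} (m : Fin a → Fin b → Ce A P) (d : Fin a → Ce A P) :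
    w3_v A P (∑ i, d i • m i) = w3_u A P m ∘ₗ w3_v A P d := by
  apply LinearMap.ext
  intro q
  funext j
  rw [LinearMap.comp_apply, w3_u_apply]
  change ((∑ i, d i • m i) j).unop q = _
  rw [Finset.sum_apply, Finset.unop_sum, LinearMap.sum_apply]
  rfl

theorem ess_surj (hp : Bas k p) {x : Fin n → ℤ} (hP : Prg k p x P)
    (N : Type u) [AddCommGroup N] [Module (Ce A P) N] [Module k N] [IsScalarTower k (Ce A P) N]
    [Module.Finite k N] :
    ∃ (X : Type u) (_ : AddCommGroup X) (_ : Module A X) (_ : Module k X) (_ : IsScalarTower k A X)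
      (_ : Module.Finite k X), Ws k p x X ∧ finrank k X ≤ finrank k P * finrank k N ∧
        Nonempty (HomP A P X ≃ₗ[Ce A P] N) := by
  classical
  let v := Module.finBasis k N
  set b := finrank k N with hb
  let π : (Fin b → Ce A P) →ₗ[Ce A P] N := Fintype.linearCombination (Ce A P) v
  have hπ : Function.Surjective π := by
    intro y
    refine ⟨fun j => algebraMap k (Ce A P) (v.repr y j), ?_⟩
    change Fintype.linearCombination (Ce A P) v _ = y
    rw [Fintype.linearCombination_apply]
    conv_rhs => rw [← v.sum_repr y]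
    refine Finset.sum_congr rfl fun j _ => ?_
    rw [algebraMap_smul]
  haveI : IsNoetherian k (Fin b → Ce A P) := inferInstance
  haveI : IsNoetherian (Ce A P) (Fin b → Ce A P) := isNoetherian_of_tower k inferInstance
  obtain ⟨a, m, hm⟩ := Submodule.fg_iff_exists_fin_generating_family.1
    (IsNoetherian.noetherian (LinearMap.ker π))
  let u := w3_u A P m
  have hPa := Ws_pow hp hP.ws a
  have hPb := Ws_pow hp hP.ws b
  have hX : Ws k p x ((Fin b → P) ⧸ LinearMap.range u) := Ws_coker hp u hPa hPb
  have hR : Ws k p x (LinearMap.range u) := Ws_range hp u hPa.1 hPb.2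
  refine ⟨(Fin b → P) ⧸ LinearMap.range u, inferInstance, inferInstance, inferInstance,
    inferInstance, inferInstance, hX, ?_, ?_⟩
  · have h1 : finrank k ((Fin b → P) ⧸ LinearMap.range u) ≤ finrank k (Fin b → P) :=
      LinearMap.finrank_le_finrank_of_surjective
        (f := ((LinearMap.range u).mkQ).restrictScalars k) (LinearMap.range u).mkQ_surjective
    refine h1.trans ?_
    rw [Module.finrank_pi_fintype]
    simp [mul_comm]
  · let Φ := w3_Phi A P (LinearMap.range u)
    have hΦ : Function.Surjective Φ := by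
      intro θ
      obtain ⟨θ', hθ'⟩ := hP.proj (Fin b → P) ((Fin b → P) ⧸ LinearMap.range u)
        (LinearMap.range u).mkQ (LinearMap.range u).mkQ_surjective hPb hX
        (show P →ₗ[A] ((Fin b → P) ⧸ LinearMap.range u) from θ)
      refine ⟨fun j => MulOpposite.op (LinearMap.proj j ∘ₗ θ' : P →ₗ[A] P), ?_⟩
      change ((LinearMap.range u).mkQ ∘ₗ w3_v A P _ : P →ₗ[A] _) = θ
      exact hθ'
    have hker : LinearMap.ker Φ = LinearMap.ker π := by
      rw [← hm]
      ext c
      rw [Submodule.mem_span_range_iff_exists_fun, LinearMap.mem_ker]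
      constructor
      · intro hc
        have hc' : ∀ q, w3_v A P c q ∈ LinearMap.range u := by
          intro q
          have h2 := LinearMap.congr_fun (show ((LinearMap.range u).mkQ ∘ₗ w3_v A P c :
            P →ₗ[A] ((Fin b → P) ⧸ LinearMap.range u)) = 0 from hc) q
          exact (Submodule.Quotient.mk_eq_zero _).1 h2
        obtain ⟨θ'', hθ''⟩ := hP.proj (Fin a → P) (LinearMap.range u) u.rangeRestrict
          u.surjective_rangeRestrict hPa hR (LinearMap.codRestrict _ (w3_v A P c) hc')
        let d : Fin a → Ce A P := fun i => MulOpposite.op (LinearMap.proj i ∘ₗ θ'' : P →ₗ[A] P)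
        refine ⟨d, ?_⟩
        have h3 : w3_v A P (∑ i, d i • m i) = w3_v A P c := by
          rw [w3_v_comp]
          have h4 : w3_v A P d = θ'' := rfl
          rw [h4]
          apply LinearMap.ext
          intro q
          exact congrArg Subtype.val (LinearMap.congr_fun hθ'' q)
        funext j
        apply MulOpposite.unop_injective
        apply LinearMap.ext
        intro q
        exact congrFun (LinearMap.congr_fun h3 q) j
      · rintro ⟨d, rfl⟩
        change ((LinearMap.range u).mkQ ∘ₗ w3_v A P _ : P →ₗ[A] _) = 0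
        rw [w3_v_comp]
        apply LinearMap.ext
        intro q
        exact (Submodule.Quotient.mk_eq_zero _).2 ⟨_, rfl⟩
    exact ⟨(Φ.quotKerEquivOfSurjective hΦ).symm.trans ((Submodule.quotEquivOfEq _ _ hker).trans
      (π.quotKerEquivOfSurjective hπ))⟩

end

end TB4
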