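import Pool.Agent.LibTB4.W2
import Pool.Agent.LibTB4.W3
import Pool.Agent.LibTB3.N4
/-!
ROW [TB4 W4] MEDIUM.
(cite N3, N4, W2, W3) simple modules and bricks of C = Ce A P.
PLAN. simple_of_stable: S stable.  HomP nontrivial.  For 0 ≠ φ ∈ HomP A P S and ψ ∈ HomP A P S: φ : P → S is surjective (St.surj), Prg.proj gives c : P → P with φ ∘ c = ψ, i.e. op c • φ = ψ.  So
every nonzero element generates: IsSimpleModule (`isSimpleModule_iff_toSpanSingleton_surjective` or IsSimpleOrder by hand).
stable_of_simple: N ≃ HomP A P X (ess_surj; N is finite over k: a simple module over the f.d. algebra C), X ≠ 0, X → S stable quotient (exists_stable_quot), mapH is surjective (Prg.proj) from the simple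
module HomP A P X to HomP A P S ≠ 0, so bijective.
brick_iff: full, faithful: nonzero endomorphisms of HomP A P X are the mapH h, h ≠ 0.  If X is a brick, h is bijective, mapH h is bijective.  If HomP A P X is a brick, mapH h is bijective; ker h is
semistable; if it were nonzero then a nonzero φ : P → ker h contradicts injectivity of mapH h; so h is injective, bijective by finite dimension.  X nontrivial ↔ HomP nontrivial.
-/
set_option autoImplicit false
universe u
namespace TB4
open Module TB10 TB3

section
variable {k : Type u} [Field k] {A : Type u} [Ring A] [Algebra k A]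
variable {n : ℕ} {p : Fin n → Submodule A A}
    [Module.Finite k A]
    {P : Type u} [AddCommGroup P] [Module A P] [Module k P] [IsScalarTower k A P] [Module.Finite k P]
    {X : Type u} [AddCommGroup X] [Module A X] [Module k X] [IsScalarTower k A X] [Module.Finite k X]

theorem simple_of_stable (hp : Bas k p) {x : Fin n → ℤ} (hP : Prg k p x P) (hS : St k p x X) :
    IsSimpleModule (Ce A P) (HomP A P X) := by
  haveI := hS.nt
  rw [isSimpleModule_iff_toSpanSingleton_surjective]
  refine ⟨hom_nontrivial hP (hS.ws hp), fun φ hφ ψ => ?_⟩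
  have h1 : Function.Surjective (show P →ₗ[A] X from φ) :=
    hS.surj hp hP.ws.1 (show P →ₗ[A] X from φ) hφ
  obtain ⟨c, hc⟩ := hP.proj P X (show P →ₗ[A] X from φ) h1 hP.ws (hS.ws hp)
    (show P →ₗ[A] X from ψ)
  exact ⟨MulOpposite.op c, hc⟩

theorem stable_of_simple (hp : Bas k p) {x : Fin n → ℤ} (hP : Prg k p x P)
    (N : Type u) [AddCommGroup N] [Module (Ce A P) N] [IsSimpleModule (Ce A P) N] :
    ∃ (X : Type u) (_ : AddCommGroup X) (_ : Module A X) (_ : Module k X) (_ : IsScalarTower k A X)
      (_ : Module.Finite k X), St k p x X ∧ Nonempty (N ≃ₗ[Ce A P] HomP A P X) := by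
  letI : Module k N := Module.compHom N (algebraMap k (Ce A P))
  haveI : IsScalarTower k (Ce A P) N := ⟨fun c a y => by
    change (c • a) • y = (algebraMap k (Ce A P) c) • (a • y)
    rw [Algebra.smul_def, mul_smul]⟩
  haveI hnt : Nontrivial N := IsSimpleModule.nontrivial (Ce A P) N
  obtain ⟨y, hy⟩ := exists_ne (0 : N)
  haveI : Module.Finite k N := by
    have h1 := IsSimpleModule.toSpanSingleton_surjective (Ce A P) hy
    exact Module.Finite.of_surjective
      ((LinearMap.toSpanSingleton (Ce A P) N y).restrictScalars k) h1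
  obtain ⟨X, i1, i2, i3, i4, i5, hX, -, ⟨e⟩⟩ := ess_surj (k := k) hp hP N
  have hXn : Nontrivial X := by
    by_contra h
    rw [not_nontrivial_iff_subsingleton] at h
    have hsub : Subsingleton (HomP A P X) :=
      ⟨fun φ ψ => LinearMap.ext fun q => Subsingleton.elim _ _⟩
    have := e.symm.injective.nontrivial
    exact not_subsingleton _ hsub
  obtain ⟨K, hK⟩ := exists_stable_quot hp hX
  haveI := hK.nt
  haveI := hom_nontrivial hP (hK.ws hp)
  haveI : IsSimpleModule (Ce A P) (HomP A P X) := IsSimpleModule.congr e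
  let g : HomP A P X →ₗ[Ce A P] HomP A P (X ⧸ K) := mapH K.mkQ
  have hg : Function.Surjective g := by
    intro θ
    obtain ⟨θ', hθ'⟩ := hP.proj X (X ⧸ K) K.mkQ K.mkQ_surjective hX (hK.ws hp)
      (show P →ₗ[A] (X ⧸ K) from θ)
    exact ⟨θ', hθ'⟩
  have hgi : Function.Injective g := by
    rcases LinearMap.injective_or_eq_zero g with h | h
    · exact h
    · exfalso
      obtain ⟨θ, hθ⟩ := exists_ne (0 : HomP A P (X ⧸ K))
      obtain ⟨θ', hθ'⟩ := hg θ
      rw [h] at hθ'
      exact hθ hθ'.symm
  exact ⟨X ⧸ K, inferInstance, inferInstance, inferInstance, inferInstance, inferInstance, hK,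
    ⟨e.symm.trans (LinearEquiv.ofBijective g ⟨hgi, hg⟩)⟩⟩

theorem brick_iff (hp : Bas k p) {x : Fin n → ℤ} (hP : Prg k p x P) (hX : Ws k p x X) :
    IsBrick (Ce A P) (HomP A P X) ↔ IsBrick A X := by
  constructor
  · rintro ⟨hn, hb⟩
    have hXn : Nontrivial X := by
      by_contra h
      rw [not_nontrivial_iff_subsingleton] at h
      have hsub : Subsingleton (HomP A P X) :=
        ⟨fun φ ψ => LinearMap.ext fun q => Subsingleton.elim _ _⟩
      exact not_subsingleton _ hsub
    refine ⟨hXn, fun h h0 => ?_⟩
    have hm : (mapH h : HomP A P X →ₗ[Ce A P] HomP A P X) ≠ 0 :=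
      fun hm => h0 (faithful hP hX h hm)
    have hbij := hb _ hm
    have hker : LinearMap.ker h = ⊥ := by
      by_contra hne
      haveI : Nontrivial (LinearMap.ker h) := (Submodule.nontrivial_iff_ne_bot).2 hne
      haveI := hom_nontrivial hP (Ws_ker hp h hX hX)
      obtain ⟨φ, hφ⟩ := exists_ne (0 : HomP A P (LinearMap.ker h))
      have h1 : mapH h ((LinearMap.ker h).subtype ∘ₗ (show P →ₗ[A] LinearMap.ker h from φ) :
          P →ₗ[A] X) = mapH h (0 : P →ₗ[A] X) := by
        apply LinearMap.ext
        intro q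
        change h ((show P →ₗ[A] LinearMap.ker h from φ) q : X) = h 0
        rw [map_zero]
        exact ((show P →ₗ[A] LinearMap.ker h from φ) q).2
      have h2 := hbij.1 h1
      apply hφ
      apply LinearMap.ext
      intro q
      exact Subtype.ext (LinearMap.congr_fun h2 q)
    have hinj : Function.Injective h := LinearMap.ker_eq_bot.1 hker
    refine ⟨hinj, ?_⟩
    exact (LinearMap.injective_iff_surjective (f := h.restrictScalars k)).1 hinj
  · rintro ⟨hn, hb⟩
    refine ⟨hom_nontrivial hP hX, fun g hg => ?_⟩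
    obtain ⟨h, rfl⟩ := full hp hP hX hX g
    have h0 : h ≠ 0 := by
      rintro rfl
      apply hg
      apply LinearMap.ext
      intro φ
      exact LinearMap.zero_comp _
    have hbij := hb h h0
    let e := LinearEquiv.ofBijective h hbij
    constructor
    · intro φ ψ hφψ
      apply LinearMap.ext
      intro q
      exact hbij.1 (LinearMap.congr_fun (show h ∘ₗ (show P →ₗ[A] X from φ) =
        h ∘ₗ (show P →ₗ[A] X from ψ) from hφψ) q)
    · intro ψ
      refine ⟨(e.symm.toLinearMap ∘ₗ (show P →ₗ[A] X from ψ) : P →ₗ[A] X), ?_⟩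
      apply LinearMap.ext
      intro q
      exact e.apply_symm_apply _

end

end TB4
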